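import Mathlib

set_option autoImplicit false

/-!
# Definitions for the central extension that is not coarsely embeddable

Labelled graphs with involutive letters, the family `Theta` of labelled graphs of large girth
with small pieces, their `Z/2`-homology covers (`LG.cov`), charts, and the states of the
inductive construction of the Cayley graph.
-/

namespace Pool.Agent.TH950.FC

open scoped symmDiff

/-- Reduced words: no two consecutive letters are equal. -/
abbrev Red {S : Type} (w : List S) : Prop := w.IsChain (· ≠ ·)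

/-- A labelled graph: every letter acts as a partial involution on the vertices. -/
structure LG (S V : Type) where
  E : S → V → V → Prop
  symm : ∀ {s x y}, E s x y → E s y x
  func : ∀ {s x y z}, E s x y → E s x z → y = z

namespace LG

variable {S V : Type}

/-- `X.Path x w y`: the word `w` read from `x` leads to `y`. -/
def Path (X : LG S V) : V → List S → V → Prop
  | x, [], y => x = y
  | x, s :: w, y => ∃ z, X.E s x z ∧ Path X z w y

/-- The word `w` can be read from `x`. -/
def Readable (X : LG S V) (x : V) (w : List S) : Prop := ∃ y, X.Path x w y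

/-- `y` can be reached from `x`. -/
def Reach (X : LG S V) (x y : V) : Prop := ∃ w, X.Path x w y

/-- A path all of whose vertices lie in `P`. -/
def PathIn (X : LG S V) (P : Set V) : V → List S → V → Prop
  | x, [], y => x = y ∧ x ∈ P
  | x, s :: w, y => x ∈ P ∧ ∃ z, X.E s x z ∧ PathIn X P z w y

/-- A path from `x` to `y` which meets `D` exactly at its last vertex `y`. -/
def Hit (X : LG S V) (D : Set V) : V → List S → V → Prop
  | x, [], y => x = y ∧ x ∈ D
  | x, s :: w, y => x ∉ D ∧ ∃ z, X.E s x z ∧ Hit X D z w y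

/-- A path with total weight `m` for the edge weights `ω` (`ω s x` is the weight of the edge
labelled `s` when it is traversed starting from `x`). -/
def WPath (X : LG S V) (ω : S → V → ℤ) : V → List S → V → ℤ → Prop
  | x, [], y, m => x = y ∧ m = 0
  | x, s :: w, y, m => ∃ z, X.E s x z ∧ WPath X ω z w y (m - ω s x)

/-- The `Z/2`-homology cover: vertices `(v, A)`, `A` a finite set of edges of the base, and
crossing the edge `e` changes `A` to `A ∆ {e}`. -/
def cov [DecidableEq V] (X : LG S V) : LG S (V × Finset (Sym2 V)) where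
  E s c c' := X.E s c.1 c'.1 ∧ c'.2 = c.2 ∆ {s(c.1, c'.1)}
  symm := by
    rintro s x y ⟨h, h'⟩
    refine ⟨X.symm h, ?_⟩
    rw [h', Sym2.eq_swap, symmDiff_assoc, symmDiff_self, symmDiff_bot]
  func := by
    rintro s x y z ⟨h1, h1'⟩ ⟨h2, h2'⟩
    have h3 := X.func h1 h2
    exact Prod.ext h3 (by rw [h1', h2', h3])

end LG

/-- The family of labelled graphs: `Q` is the set of all vertices of all the graphs, `g` is a
lower bound for the girth (constant on components), `h` is an antisymmetric cochain. Every
single edge also occurs as a component (with `g = 100`). -/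
structure Theta (S Q : Type) [DecidableEq Q] extends LG S Q where
  g : Q → ℕ
  h : S → Q → ℤ
  g_edge : ∀ {s q r}, E s q r → g r = g q
  h_anti : ∀ {s q r}, E s q r → h s r = - h s q
  hundred_le : ∀ q, 100 ≤ g q
  girth : ∀ {q r w w'}, Red w → Red w' → toLG.Path q w r → toLG.Path q w' r →
    w.length + w'.length < g q → w = w'
  piece : ∀ {q q' w}, q ≠ q' → Red w → toLG.Readable q w → toLG.Readable q' w →
    100 * w.length ≤ g q
  fin : ∀ n, {q | g q ≤ n}.Finite
  edgeType : ∀ s, ∃ q, g q = 100 ∧ toLG.Readable q [s] ∧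
    ∀ w, Red w → toLG.Readable q w → w = [] ∨ w = [s]
  long : ∀ q, 100 < g q → ∃ w, Red w ∧ toLG.Readable q w ∧ 2 * g q < 100 * w.length

/-- The edges (of the base) with a lift inside the set `P` of vertices of the cover. -/
def edgesOf {S Q : Type} [DecidableEq Q] (T : Theta S Q) (P : Set (Q × Finset (Sym2 Q))) :
    Set (Sym2 Q) :=
  {e | ∃ s c c', c ∈ P ∧ c' ∈ P ∧ T.cov.E s c c' ∧ e = s(c.1, c'.1)}

/-- Relators of the group: squares of letters and closed words of the covers. -/
def rels {S Q : Type} [DecidableEq Q] (T : Theta S Q) : Set (FreeGroup S) :=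
  {r | (∃ s, r = FreeGroup.of s * FreeGroup.of s) ∨
    ∃ q w, T.cov.Path (q, ∅) w (q, ∅) ∧ r = (w.map FreeGroup.of).prod}

section chart

variable {S Q V W H : Type} [DecidableEq Q] [DecidableEq W]

/-- The pair `(x, q)` is charted: a copy of the cover of the component of `q` sits in `X` with
`(q, ∅)` at `x`, the walls of this copy are the edges of the component, and the cochain `ω`
restricted to this copy is cohomologous to `T.h`. -/
def Charted (T : Theta S Q) (X : LG S V) (β : V → Finset W) (ω : S → V → ℤ) (x : V) (q : Q) :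
    Prop :=
  ∃ (ι : Q × Finset (Sym2 Q) → V) (j : Sym2 Q → W) (ψ : Q × Finset (Sym2 Q) → ℤ),
    Function.Injective j ∧ ι (q, ∅) = x ∧
    ∀ c, T.cov.Reach (q, ∅) c →
      β (ι c) = β x ∆ c.2.image j ∧
      ∀ s c', T.cov.E s c c' → X.E s (ι c) (ι c') ∧ ω s (ι c) = T.h s c.1 + ψ c' - ψ c

/-- `x` and `y` are joined by a chain of jumps inside copies of the components, the cost of a
jump in a copy of the component of `q` being `g q`. -/
inductive Conn (T : Theta S Q) (X : LG S V) (β : V → Finset W) (ω : S → V → ℤ) :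
    V → V → ℕ → Prop
  | refl (x : V) : Conn T X β ω x x 0
  | step {x y z : V} {n : ℕ} {q : Q} {w : List S} : Conn T X β ω x y n →
      Charted T X β ω y q → T.Readable q w → X.Path y w z → Conn T X β ω x z (n + T.g q)

/-- The final object: a connected graph on which all letters act, with walls `β`, a cochain
`ω`, a potential `p` with values in the group `H`, all pairs charted and a wall metric which is
comparable with the coned-off metric. -/
structure Limit (T : Theta S Q) [Group H] (a : S → H) (X : LG S V) (β : V → Finset W)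
    (ω : S → V → ℤ) (p : V → H) (base : V) : Prop where
  total : ∀ s x, ∃ y, X.E s x y
  conn : ∀ x, X.Reach base x
  color : ∀ {s x y}, X.E s x y → (β x ∆ β y).card = 1
  anti : ∀ {s x y}, X.E s x y → ω s y = - ω s x
  pot : ∀ {s x y}, X.E s x y → p y = p x * a s
  charted : ∀ x q, Charted T X β ω x q
  metric : ∀ x y, ∃ n, Conn T X β ω x y n ∧ n ≤ 100 * (β x ∆ β y).card

end chart

section state

/-- Vertices of the graphs under construction: tagged vertices of the covers. -/
abbrev Vt (Q : Type) := ℕ × (Q × Finset (Sym2 Q))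

/-- Walls: tagged edges. -/
abbrev Wt (Q : Type) := ℕ × Sym2 Q

variable {S Q H : Type} [DecidableEq Q]

/-- A state of the construction. -/
structure St (S Q H : Type) where
  dom : Set (Vt Q)
  X : LG S (Vt Q)
  β : Vt Q → Finset (Wt Q)
  ω : S → Vt Q → ℤ
  p : Vt Q → H
  t : ℕ

/-- chartedness in a state -/
abbrev St.Ch (st : St S Q H) (T : Theta S Q) (x : Vt Q) (q : Q) : Prop :=
  Charted T st.X st.β st.ω x q

/-- `w` is read both from `x` and from `q`, ending at `y` in the state. -/
def St.Common (st : St S Q H) (T : Theta S Q) (x : Vt Q) (q : Q) (w : List S) (y : Vt Q) :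
    Prop := Red w ∧ st.X.Path x w y ∧ T.Readable q w

/-- The overlap of the state with the component of `q` at `x`; for `q = none` just `{x}`. -/
def St.Ov (st : St S Q H) (T : Theta S Q) (x : Vt Q) : Option Q → Set (Vt Q)
  | none => {x}
  | some q => {y | ∃ w, st.Common T x q w y}

/-- thin pairs -/
def St.Thin (st : St S Q H) (T : Theta S Q) (x : Vt Q) : Option Q → Prop
  | none => True
  | some q => ¬ st.Ch T x q

/-- The walls crossing a set of vertices: colours of the edges with both ends in the overlap
(traversed inside the overlap). -/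
def St.OvWalls (st : St S Q H) (T : Theta S Q) (x : Vt Q) : Option Q → Set (Wt Q)
  | none => ∅
  | some q => {k | ∃ w s y z, st.Common T x q w y ∧ st.X.E s y z ∧
      T.Readable q (w ++ [s]) ∧ k ∈ st.β y ∆ st.β z}

/-- The basic properties of a state. -/
structure Basic (T : Theta S Q) [Group H] (a : S → H) (st : St S Q H) : Prop where
  fin : st.dom.Finite
  ne : st.dom.Nonempty
  edge_dom : ∀ {s x y}, st.X.E s x y → x ∈ st.dom
  tag_lt : ∀ {x}, x ∈ st.dom → x.1 < st.t
  wall_lt : ∀ {x}, x ∈ st.dom → ∀ k ∈ st.β x, k.1 < st.t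
  conn : ∀ {x y}, x ∈ st.dom → y ∈ st.dom → st.X.Reach x y
  color : ∀ {s x y}, st.X.E s x y → (st.β x ∆ st.β y).card = 1
  anti : ∀ {s x y}, st.X.E s x y → st.ω s y = - st.ω s x
  pot : ∀ {s x y}, st.X.E s x y → st.p y = st.p x * a s

/-- Uncharted pairs have short overlaps (at most `κ` percent of the girth), which are
isometrically embedded for the wall metric. -/
def Inv (T : Theta S Q) (κ : ℕ) (st : St S Q H) : Prop :=
  ∀ x ∈ st.dom, ∀ q, ¬ st.Ch T x q → ∀ w y, st.Common T x q w y →
    100 * w.length ≤ κ * T.g q ∧ (st.β x ∆ st.β y).card = w.length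

/-- The order on states. -/
structure Ext (st st' : St S Q H) : Prop where
  dom : st.dom ⊆ st'.dom
  E : ∀ {s x y}, st.X.E s x y → st'.X.E s x y
  β : ∀ {x}, x ∈ st.dom → st'.β x = st.β x
  ω : ∀ {s x y}, st.X.E s x y → st'.ω s x = st.ω s x
  p : ∀ {x}, x ∈ st.dom → st'.p x = st.p x
  t : st.t ≤ st'.t

/-- No bigons between two overlaps of uncharted pairs. -/
def Bg (T : Theta S Q) (st : St S Q H) : Prop :=
  ∀ x ∈ st.dom, ∀ q q', ¬ st.Ch T x q → ¬ st.Ch T x q' → ∀ w w' y,
    st.Common T x q w y → st.Common T x q' w' y → w = w'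

/-- The lower bound for the wall distance between two thin overlaps. -/
def Q2 (T : Theta S Q) (st : St S Q H) : Prop :=
  ∀ x ∈ st.dom, ∀ x' ∈ st.dom, ∀ q q' : Option Q, st.Thin T x q → st.Thin T x' q' →
    ∃ y ∈ st.Ov T x q, ∃ y' ∈ st.Ov T x' q', ∃ n, Conn T st.X st.β st.ω y y' n ∧
      n ≤ 100 * (((st.β y ∆ st.β y' : Finset (Wt Q)) : Set (Wt Q)) \
        (st.OvWalls T x q ∪ st.OvWalls T x' q')).ncard

/-- All invariants of a state. -/
structure Good (T : Theta S Q) [Group H] (a : S → H) (κ : ℕ) (st : St S Q H) : Prop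
    extends Basic T a st where
  inv : Inv T κ st
  bg : Bg T st
  q2 : Q2 T st

end state

section nbwalk

/-- `NBWalk G p`: the list `p` of vertices is a nonempty non-backtracking walk in `G`
(consecutive vertices adjacent, `p i ≠ p (i+2)`). -/
def NBWalk {V : Type} (G : SimpleGraph V) (p : List V) : Prop :=
  p ≠ [] ∧ (∀ i (h : i + 1 < p.length), G.Adj p[i] p[i + 1]) ∧
    ∀ i (h : i + 2 < p.length), p[i] ≠ p[i + 2]

/-- The word read along a walk. -/
def word {V C : Type} (c : Sym2 V → C) (p : List V) : List C :=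
  (p.zip p.tail).map fun e => c s(e.1, e.2)

end nbwalk

open Classical in
/-- The relative Poincare inequality in the block of `q`: `B` is the block, `T.h = k * h'` on
it, `|h'| ≤ 1`. -/
def Expand {S Q : Type} [DecidableEq Q] [Fintype S] (T : Theta S Q) (c₀ : ℝ) (q : Q) (k : ℤ) :
    Prop :=
  ∃ (B : Finset (Q × Finset (Sym2 Q))) (h' : S → Q → ℤ), (∀ c, c ∈ B ↔ T.cov.Reach (q, ∅) c) ∧
    (∀ s r, T.Reach q r → T.h s r = k * h' s r) ∧ (∀ s r, |h' s r| ≤ 1) ∧
    ∀ (N : ℕ) [NeZero N] (F : Q × Finset (Sym2 Q) → ZMod N → ℝ),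
      c₀ * ((∑ c ∈ B, ∑ j, (F c (j + 2) - F c j) ^ 2) - ∑ c ∈ B, ∑ j, (F c j) ^ 2) ≤
        ∑ c ∈ B, ∑ j, ∑ s, ∑ c' ∈ B, if T.cov.E s c c' then
          (F c j - F c' (j + (h' s c.1 : ZMod N))) ^ 2 else 0

end Pool.Agent.TH950.FC
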