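import Pool.Agent.TH445.J774
import Pool.Agent.TH480.J775
import Pool.Agent.TH480.J776
import Pool.Agent.TH480.J777
import Pool.Agent.TH628.J778
import Pool.Agent.TH553.J779
import Pool.Agent.TH472.J862
import Pool.Agent.TH429.J864
import Pool.Agent.TH480.J865
import Pool.Agent.TH429.J866
import Pool.Agent.TH472.J867
import Pool.Agent.TH350.J868
import Pool.Agent.TH480.J869
import Pool.Agent.TH553.J870
import Pool.Agent.TH445.J871
import Pool.Agent.TH159.J891
import Pool.Agent.TH950.FC.Shape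

set_option autoImplicit false
set_option linter.unusedVariables false

/-!
# Assembly: a central extension of `ℤ` by a coarsely embeddable group which is not coarsely
embeddable
-/

namespace Pool.Agent.TH950.FC

open scoped symmDiff

theorem relLemmas' (S Q V : Type) [DecidableEq Q] : RelLemmas S Q V where
  unique := fun T X D N nc hR y q u u' b b' h1 h2 h3 h4 h5 h6 h7 h8 h9 =>
    Pool.Agent.TH553.J870.rel_unique (T := T) (X := X) (D := D) (N := N) (nc := nc)
      ⟨hR.N_step, hR.cover, hR.meet, hR.short, hR.nc_step, hR.nc_N⟩ h1 h2 h3 h4 h5 h6 h7 h8 h9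
  leave := fun T X D N nc hR x y z q s w h1 h2 h3 h4 h5 h6 h7 =>
    Pool.Agent.TH553.J870.rel_leave (T := T) (X := X) (D := D) (N := N) (nc := nc)
      ⟨hR.N_step, hR.cover, hR.meet, hR.short, hR.nc_step, hR.nc_N⟩ h1 h2 h3 h4 h5 h6 h7
  gen := fun T X D N nc hR x y q w h1 h2 h3 h4 =>
    Pool.Agent.TH553.J870.rel_gen (T := T) (X := X) (D := D) (N := N) (nc := nc)
      ⟨hR.N_step, hR.cover, hR.meet, hR.short, hR.nc_step, hR.nc_N⟩ h1 h2 h3 h4

theorem blockDichotomy (S Q : Type) [DecidableEq Q] : BlockDichotomy S Q :=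
  fun T q₀ P₁ P₂ h₁ h₂ hc₁ hc₂ => Pool.Agent.TH445.J871.block_dichotomy T q₀ P₁ P₂ h₁ h₂ hc₁ hc₂

theorem sum_sum_eq_ncard {n : ℕ} (G : SimpleGraph (Fin n)) [DecidableRel G.Adj]
    (U W : Finset (Fin n)) :
    (∑ u ∈ U, ∑ v ∈ W, if G.Adj u v then 1 else 0) =
      {p : Fin n × Fin n | p.1 ∈ U ∧ p.2 ∈ W ∧ G.Adj p.1 p.2}.ncard := by
  rw [← Finset.sum_product', Finset.sum_ite, Finset.sum_const_zero, add_zero, ← Finset.card_eq_sum_ones,
    ← Set.ncard_coe_finset]
  congr 1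
  ext p
  simp [and_assoc]

open Classical in
/-- The supply of graphs. -/
theorem graph_supply (g : ℕ) (hg : 20 ≤ g) :
    ∃ (n : ℕ) (G : SimpleGraph (Fin n)) (h : Fin n → Fin n → ℤ),
      0 < n ∧ n ≤ 4 * 400 ^ g ∧ (∀ v, (G.neighborSet v).ncard ≤ 400) ∧
      (∀ v, 2 ≤ (G.neighborSet v).ncard) ∧
      (∀ (v : Fin n) (c : G.Walk v v), c.IsCycle → g ≤ c.length) ∧
      (∀ u v, h v u = - h u v) ∧ (∀ u v, |h u v| ≤ 1) ∧
      ∀ (N : ℕ) [NeZero N] (F : Fin n → Finset (Sym2 (Fin n)) → ZMod N → ℝ),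
        ((1 / 16 : ℝ) ^ 2 / (4 * (400 : ℕ)) / 12) *
          ((∑ v, ∑ A, ∑ j, (F v A (j + 2) - F v A j) ^ 2) - ∑ v, ∑ A, ∑ j, (F v A j) ^ 2) ≤
          ∑ u, ∑ A, ∑ j, ∑ v, if G.Adj u v then
            (F u A j - F v (A ∆ {s(u, v)}) (j + (h u v : ZMod N))) ^ 2 else 0 := by
  obtain ⟨n, G, hn, hn', hdeg, hgirth, hdense⟩ :=
    Pool.Agent.TH553.J779.exists_graph g (by omega)
  have hdegree : ∀ v, G.degree v = (G.neighborSet v).ncard := by
    intro v
    rw [← SimpleGraph.card_neighborFinset_eq_degree, ← Set.ncard_coe_finset]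
    simp
  have hdense' : ∀ U : Finset (Fin n), 200 * U.card ≤
      (∑ u ∈ U, ∑ v ∈ U, if G.Adj u v then 1 else 0) +
        2 * ∑ u ∈ U, ∑ v ∈ Uᶜ, if G.Adj u v then 1 else 0 := by
    intro U
    rw [sum_sum_eq_ncard, sum_sum_eq_ncard]
    simpa using hdense U
  obtain ⟨h, hanti, habs, hiso⟩ := Pool.Agent.TH628.J778.exists_connection G g hg
    (by simpa using hn') (fun v => by rw [hdegree]; exact hdeg v) hdense'
    (fun U hU hU' => Pool.Agent.TH553.J779.card_ge_of_girth G g hgirth U hU hU')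
  refine ⟨n, G, h, hn, hn', hdeg, ?_, hgirth, hanti, habs, ?_⟩
  · intro v
    have := hdense' {v}
    have h2 : (∑ u ∈ ({v} : Finset (Fin n)), ∑ w ∈ ({v} : Finset (Fin n))ᶜ,
        if G.Adj u w then 1 else 0) ≤ (G.neighborSet v).ncard := by
      rw [sum_sum_eq_ncard, ← hdegree v, ← SimpleGraph.card_neighborFinset_eq_degree,
        ← Set.ncard_coe_finset]
      refine Set.ncard_le_ncard_of_injOn Prod.snd ?_ ?_ (Set.toFinite _)
      · rintro ⟨p, q⟩ ⟨hp, -, hpq⟩
        simp only [Finset.mem_singleton] at hp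
        subst hp
        simpa using hpq
      · rintro ⟨p, q⟩ ⟨hp, -, -⟩ ⟨p', q'⟩ ⟨hp', -, -⟩ hqq
        simp only [Finset.mem_singleton] at hp hp'
        simp only at hqq
        rw [hp, hp', hqq]
    have h3 : (∑ u ∈ ({v} : Finset (Fin n)), ∑ w ∈ ({v} : Finset (Fin n)),
        if G.Adj u w then 1 else 0) = 0 := by simp
    rw [h3] at this
    simp only [Finset.card_singleton] at this
    omega
  · intro N _ F
    refine Pool.Agent.TH480.J775.poincare_of_twisted G h hanti _ ?_ N F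
    intro σ b hσ hb f
    refine Pool.Agent.TH480.J776.twisted_of_untwisted G h _ (by positivity) ?_ σ b hσ hb f
    intro B hB hB1 f
    exact Pool.Agent.TH480.J777.gap_of_isoperimetry G h 400
      (fun v => by rw [hdegree]; exact hdeg v) (by norm_num) (1 / 16) (by norm_num) B hB
      (fun U hU φ hφ => hiso B hB hB1 U hU φ hφ) f

/-- The main theorem, relative to the three remaining ingredients. -/
theorem main_of
    (hlab : (∀ (k : ℕ) (G : SimpleGraph (Fin k)) (g : ℕ),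
      (∀ (v : Fin k) (c : G.Walk v v), c.IsCycle → g ≤ c.length) →
      ∀ p q : List (Fin k), NBWalk G p → NBWalk G q → p.head? = q.head? →
        p.getLast? = q.getLast? → (p.length - 1) + (q.length - 1) < g → p = q) →
    ∃ m : ℕ, ∀ (g : ℕ → ℕ) (n : ℕ → ℕ) (G : ∀ i, SimpleGraph (Fin (n i))),
    (∀ i, 10000 ≤ g i) → (∀ i, g i + 10000 ≤ g (i + 1)) → (∀ i, n i ≤ 4 * 400 ^ g i) →
    (∀ i v, ((G i).neighborSet v).ncard ≤ 400) →
    (∀ i (v : Fin (n i)) (c : (G i).Walk v v), c.IsCycle → g i ≤ c.length) →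
    ∃ c : ∀ i, Sym2 (Fin (n i)) → Fin m,
      (∀ i (u v w : Fin (n i)), (G i).Adj u v → (G i).Adj u w → v ≠ w →
        c i s(u, v) ≠ c i s(u, w)) ∧
      (∀ i (p q : List (Fin (n i))), NBWalk (G i) p → NBWalk (G i) q →
        word (c i) p = word (c i) q → p.head? ≠ q.head? → 100 * (p.length - 1) ≤ g i) ∧
      (∀ i j, i ≠ j → ∀ (p : List (Fin (n i))) (q : List (Fin (n j))), NBWalk (G i) p →
        NBWalk (G j) q → word (c i) p = word (c j) q → 100 * (p.length - 1) ≤ g i))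
    (hq2 : ∀ {S Q H : Type} [DecidableEq Q] [Group H] (_ : BlockDichotomy S Q)
      (T : Theta S Q) (a : S → H) (st st' : St S Q H) (_ : Good T a 6 st) (_ : Basic T a st')
      (x₀ : Vt Q) (q₀ : Q) (ι : Q × Finset (Sym2 Q) → Vt Q) (j : Sym2 Q → Wt Q)
      (_ : Glue T st st' x₀ q₀ ι j) (_ : Shape T st st' x₀ q₀ ι)
      (_ : Inv T 8 st') (_ : Bg T st'), Q2 T st')
    (hex : ∀ {S Q H : Type} [DecidableEq Q] [Group H] (T : Theta S Q) (a : S → H)
      (_ : ∀ s, a s * a s = 1)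
      (_ : ∀ q w, T.cov.Path (q, ∅) w (q, ∅) → (w.map a).prod = 1)
      (st : St S Q H) (_ : Basic T a st) (_ : Inv T 6 st) (x₀ : Vt Q) (_ : x₀ ∈ st.dom)
      (q₀ : Q) (_ : ¬ st.Ch T x₀ q₀),
      ∃ (st' : St S Q H) (ι : Q × Finset (Sym2 Q) → Vt Q) (j : Sym2 Q → Wt Q),
        Glue T st st' x₀ q₀ ι j ∧ Basic T a st') :
    ¬ (∀ (G E : Type) [Group G] [Group E], Group.FG G →
      (∃ f : G → lp (fun _ : ℕ => ℝ) 2,
        (∀ g : G, ∃ C : ℝ, ∀ x : G, ‖f (x * g) - f x‖ ≤ C) ∧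
        (∀ R : ℝ, {g : G | ∃ x : G, ‖f (x * g) - f x‖ ≤ R}.Finite)) →
      ∀ (i : Multiplicative ℤ →* E) (π : E →* G),
        Function.Injective i → Function.Surjective π →
        i.range = π.ker → i.range ≤ Subgroup.center E →
        ∃ f : E → lp (fun _ : ℕ => ℝ) 2,
          (∀ g : E, ∃ C : ℝ, ∀ x : E, ‖f (x * g) - f x‖ ≤ C) ∧
          (∀ R : ℝ, {g : E | ∃ x : E, ‖f (x * g) - f x‖ ≤ R}.Finite)) := by
  classical
  have huniq : ∀ (k : ℕ) (G : SimpleGraph (Fin k)) (g : ℕ),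
      (∀ (v : Fin k) (c : G.Walk v v), c.IsCycle → g ≤ c.length) →
      ∀ p q : List (Fin k), NBWalk G p → NBWalk G q → p.head? = q.head? →
        p.getLast? = q.getLast? → (p.length - 1) + (q.length - 1) < g → p = q :=
    fun k G g hg p q hp hq h0 h1 hl =>
      nbwalk_unique G g hg p q hp hq h0 h1 hl
  obtain ⟨m, Q, hdec, hcount, hne, T, hexp⟩ := Pool.Agent.TH429.J864.exists_theta _ huniq
    graph_supply (hlab huniq)
  have ha : ∀ s : Fin m, (PresentedGroup.of s : PresentedGroup (rels T)) *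
      PresentedGroup.of s = 1 := by
    intro s
    have : (PresentedGroup.mk (rels T) (FreeGroup.of s * FreeGroup.of s)) = 1 :=
      PresentedGroup.one_of_mem (Or.inl ⟨s, rfl⟩)
    rw [map_mul] at this
    exact this
  have hrel : ∀ q w, T.cov.Path (q, ∅) w (q, ∅) →
      (w.map (fun s => (PresentedGroup.of s : PresentedGroup (rels T)))).prod = 1 := by
    intro q w hw
    have h1 : (PresentedGroup.mk (rels T) (w.map FreeGroup.of).prod) = 1 :=
      PresentedGroup.one_of_mem (Or.inr ⟨q, w, hw, rfl⟩)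
    rw [map_list_prod, List.map_map] at h1
    exact h1
  have hglue : ∀ st : St (Fin m) Q (PresentedGroup (rels T)),
      Good T (fun s => PresentedGroup.of s) 6 st → ∀ x₀ ∈ st.dom, ∀ q₀, ¬ st.Ch T x₀ q₀ →
      ∃ st' ι j, Glue T st st' x₀ q₀ ι j ∧ Basic T (fun s => PresentedGroup.of s) st' ∧
        Inv T 8 st' ∧ Bg T st' ∧ Q2 T st' := by
    intro st hst x₀ hx₀ q₀ hq₀
    obtain ⟨st', ι, j, hG, hb⟩ := hex T _ ha hrel st hst.toBasic hst.inv x₀ hx₀ q₀ hq₀
    have h1 := shape_of_glue hst hG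
    have h2 := inv_of_glue hst hG
    have h3 := bg_of_glue hst hb hG
    exact ⟨st', ι, j, hG, hb, h2, h3, hq2 (blockDichotomy _ _) T _ st st' hst hb x₀ q₀ ι j hG h1
      h2 h3⟩
  obtain ⟨V, hV, X, β, ω, p, base, hL⟩ := Pool.Agent.TH480.J869.limit_of_stage T
    (fun s => (PresentedGroup.of s : PresentedGroup (rels T)))
    (fun st hst => Pool.Agent.TH159.J891.stage_of_glue T _ (relLemmas' _ _ _) hglue st hst)
  refine Pool.Agent.TH350.J868.negation_of_graph X β ω base hL.total hL.conn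
    (fun s x y h => hL.color h) (fun s x y h => hL.anti h) ?_ ?_ ?_
  · exact fun w x m' hw y => Pool.Agent.TH429.J866.homog_of_limit T X β ω p base hL w x m' hw y
  · exact fun N => proper_of_limit T _ X β ω p base hL N
  · intro F C hC hfar
    exact Pool.Agent.TH480.J865.no_embedding
      (fun Q hQ _ _ _ f t ht => Pool.Agent.TH445.J774.gaussian_form Q hQ f t ht)
      T _ (by positivity) hexp X β ω base (fun q => hL.charted base q) F C hC hfar

end Pool.Agent.TH950.FC
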