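import Pool.Agent.TH950.FC.Defs

set_option autoImplicit false

/-!
# Basic lemmas on paths in labelled graphs
-/

namespace Pool.Agent.TH950.FC

open scoped symmDiff

namespace LG

variable {S V : Type} {X : LG S V}

@[simp] theorem path_nil {x y : V} : X.Path x [] y ↔ x = y := Iff.rfl

@[simp] theorem path_cons {x y : V} {s : S} {w : List S} :
    X.Path x (s :: w) y ↔ ∃ z, X.E s x z ∧ X.Path z w y := Iff.rfl

theorem Path.func : ∀ {w : List S} {x y z : V}, X.Path x w y → X.Path x w z → y = z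
  | [], x, y, z, h, h' => h.symm.trans h'
  | s :: w, x, y, z, ⟨u, hu, h⟩, ⟨u', hu', h'⟩ => by
      obtain rfl := X.func hu hu'
      exact Path.func h h'

theorem path_append {w w' : List S} : ∀ {x y : V},
    X.Path x (w ++ w') y ↔ ∃ z, X.Path x w z ∧ X.Path z w' y := by
  induction w with
  | nil => intro x y; simp
  | cons s w ih =>
    intro x y
    simp only [List.cons_append, path_cons, ih]
    constructor
    · rintro ⟨z, hz, u, hu, h⟩; exact ⟨u, ⟨z, hz, hu⟩, h⟩
    · rintro ⟨u, ⟨z, hz, hu⟩, h⟩; exact ⟨z, hz, u, hu, h⟩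

theorem Path.append {w w' : List S} {x y z : V} (h : X.Path x w y) (h' : X.Path y w' z) :
    X.Path x (w ++ w') z := path_append.2 ⟨y, h, h'⟩

theorem path_singleton {x y : V} {s : S} : X.Path x [s] y ↔ X.E s x y := by
  simp

theorem path_snoc {x y : V} {w : List S} {s : S} :
    X.Path x (w ++ [s]) y ↔ ∃ z, X.Path x w z ∧ X.E s z y := by
  simp [path_append]

theorem Path.rev : ∀ {w : List S} {x y : V}, X.Path x w y → X.Path y w.reverse x
  | [], x, y, h => by simpa using h.symm
  | s :: w, x, y, ⟨z, hz, h⟩ => by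
      rw [List.reverse_cons, path_snoc]
      exact ⟨z, h.rev, X.symm hz⟩

theorem path_rev_iff {w : List S} {x y : V} : X.Path y w.reverse x ↔ X.Path x w y :=
  ⟨fun h => by simpa using h.rev, Path.rev⟩

/-- Going back is injective. -/
theorem Path.inj {w : List S} {x y z : V} (h : X.Path x w z) (h' : X.Path y w z) : x = y :=
  h.rev.func h'.rev

theorem Readable.of_path {x y : V} {w : List S} (h : X.Path x w y) : X.Readable x w := ⟨y, h⟩

theorem readable_append {w w' : List S} {x : V} :
    X.Readable x (w ++ w') ↔ ∃ z, X.Path x w z ∧ X.Readable z w' := by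
  constructor
  · rintro ⟨y, h⟩
    obtain ⟨z, hz, h⟩ := path_append.1 h
    exact ⟨z, hz, y, h⟩
  · rintro ⟨z, hz, y, h⟩
    exact ⟨y, hz.append h⟩

theorem Readable.left {w w' : List S} {x : V} (h : X.Readable x (w ++ w')) : X.Readable x w := by
  obtain ⟨z, hz, -⟩ := readable_append.1 h
  exact ⟨z, hz⟩

theorem Reach.refl (x : V) : X.Reach x x := ⟨[], rfl⟩

theorem Reach.trans {x y z : V} (h : X.Reach x y) (h' : X.Reach y z) : X.Reach x z := by
  obtain ⟨w, hw⟩ := h
  obtain ⟨w', hw'⟩ := h'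
  exact ⟨w ++ w', hw.append hw'⟩

theorem Reach.symm {x y : V} (h : X.Reach x y) : X.Reach y x := by
  obtain ⟨w, hw⟩ := h
  exact ⟨w.reverse, hw.rev⟩

theorem Reach.step {x y z : V} {s : S} (h : X.Reach x y) (h' : X.E s y z) : X.Reach x z :=
  h.trans ⟨[s], path_singleton.2 h'⟩

theorem Reach.path {x y z : V} {w : List S} (h : X.Reach x y) (h' : X.Path y w z) :
    X.Reach x z := h.trans ⟨w, h'⟩

theorem PathIn.path : ∀ {w : List S} {P : Set V} {x y : V}, X.PathIn P x w y → X.Path x w y
  | [], _, _, _, h => h.1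
  | _ :: _, _, _, _, ⟨_, z, hz, h⟩ => ⟨z, hz, h.path⟩

theorem PathIn.mem_left : ∀ {w : List S} {P : Set V} {x y : V}, X.PathIn P x w y → x ∈ P
  | [], _, _, _, h => h.2
  | _ :: _, _, _, _, h => h.1

theorem PathIn.mem_right : ∀ {w : List S} {P : Set V} {x y : V}, X.PathIn P x w y → y ∈ P
  | [], _, _, _, h => h.1 ▸ h.2
  | _ :: _, _, _, _, ⟨_, _, _, h⟩ => h.mem_right

theorem pathIn_append {w w' : List S} {P : Set V} : ∀ {x y : V},
    X.PathIn P x (w ++ w') y ↔ ∃ z, X.PathIn P x w z ∧ X.PathIn P z w' y := by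
  induction w with
  | nil =>
    intro x y
    constructor
    · intro h; exact ⟨x, ⟨rfl, h.mem_left⟩, h⟩
    · rintro ⟨z, ⟨rfl, _⟩, h⟩; exact h
  | cons s w ih =>
    intro x y
    constructor
    · rintro ⟨hx, z, hz, h⟩
      obtain ⟨u, hu, h'⟩ := ih.1 h
      exact ⟨u, ⟨hx, z, hz, hu⟩, h'⟩
    · rintro ⟨u, ⟨hx, z, hz, hu⟩, h'⟩
      exact ⟨hx, z, hz, ih.2 ⟨u, hu, h'⟩⟩

theorem PathIn.mono {w : List S} {P P' : Set V} (hP : P ⊆ P') : ∀ {x y : V},
    X.PathIn P x w y → X.PathIn P' x w y := by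
  induction w with
  | nil => intro x y h; exact ⟨h.1, hP h.2⟩
  | cons s w ih =>
    rintro x y ⟨hx, z, hz, h⟩
    exact ⟨hP hx, z, hz, ih h⟩

theorem PathIn.rev : ∀ {w : List S} {P : Set V} {x y : V}, X.PathIn P x w y →
    X.PathIn P y w.reverse x
  | [], _, x, y, h => by
      obtain ⟨rfl, h⟩ := h
      exact ⟨rfl, h⟩
  | s :: w, P, x, y, ⟨hx, z, hz, h⟩ => by
      rw [List.reverse_cons, pathIn_append]
      exact ⟨z, h.rev, h.mem_left, x, X.symm hz, rfl, hx⟩

/-- Transport of a path along a map of edge relations. -/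
theorem Path.map {V' : Type} {Y : LG S V'} (f : V → V')
    (hf : ∀ s x y, X.E s x y → Y.E s (f x) (f y)) :
    ∀ {w : List S} {x y : V}, X.Path x w y → Y.Path (f x) w (f y)
  | [], _, _, h => congrArg f h
  | _ :: _, _, _, ⟨z, hz, h⟩ => ⟨f z, hf _ _ _ hz, h.map f hf⟩

theorem Path.mono {Y : LG S V} (hf : ∀ s x y, X.E s x y → Y.E s x y)
    {w : List S} {x y : V} (h : X.Path x w y) : Y.Path x w y :=
  h.map id (fun s x y => hf s x y)

section cov

variable [DecidableEq V]

theorem cov_E {s : S} {c c' : V × Finset (Sym2 V)} :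
    X.cov.E s c c' ↔ X.E s c.1 c'.1 ∧ c'.2 = c.2 ∆ {s(c.1, c'.1)} := Iff.rfl

theorem Path.proj {w : List S} {c c' : V × Finset (Sym2 V)} (h : X.cov.Path c w c') :
    X.Path c.1 w c'.1 :=
  Path.map (X := X.cov) (Y := X) Prod.fst (fun _ _ _ h => (cov_E.1 h).1) h

/-- Lifting an edge. -/
theorem cov_lift {s : S} {v v' : V} (h : X.E s v v') (A : Finset (Sym2 V)) :
    X.cov.E s (v, A) (v', A ∆ {s(v, v')}) := ⟨h, rfl⟩

/-- Lifting a path. -/
theorem Path.lift : ∀ {w : List S} {v v' : V}, X.Path v w v' → ∀ (A : Finset (Sym2 V)),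
    ∃ A', X.cov.Path (v, A) w (v', A')
  | [], v, v', h, A => ⟨A, by rw [path_nil, show v = v' from h]⟩
  | s :: w, v, v', ⟨z, hz, h⟩, A => by
      obtain ⟨A', hA'⟩ := h.lift (A ∆ {s(v, z)})
      exact ⟨A', (z, _), cov_lift hz A, hA'⟩

theorem Path.lift' {w : List S} {v' : V} {c : V × Finset (Sym2 V)} (h : X.Path c.1 w v') :
    ∃ c', X.cov.Path c w c' ∧ c'.1 = v' := by
  obtain ⟨A', h⟩ := h.lift c.2
  exact ⟨(v', A'), h, rfl⟩

/-- Translation in the cover. -/
def shift (B : Finset (Sym2 V)) (c : V × Finset (Sym2 V)) : V × Finset (Sym2 V) :=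
  (c.1, c.2 ∆ B)

theorem shift_E {s : S} {c c' : V × Finset (Sym2 V)} (B : Finset (Sym2 V))
    (h : X.cov.E s c c') : X.cov.E s (shift B c) (shift B c') := by
  refine ⟨h.1, ?_⟩
  simp only [shift]
  rw [h.2, symmDiff_right_comm]

theorem shift_path {w : List S} {c c' : V × Finset (Sym2 V)} (B : Finset (Sym2 V))
    (h : X.cov.Path c w c') : X.cov.Path (shift B c) w (shift B c') :=
  h.map (Y := X.cov) (shift B) (fun _ _ _ => shift_E B)

theorem shift_shift (B : Finset (Sym2 V)) (c : V × Finset (Sym2 V)) :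
    shift B (shift B c) = c := by
  simp [shift]

theorem shift_path_iff {w : List S} {c c' : V × Finset (Sym2 V)} (B : Finset (Sym2 V)) :
    X.cov.Path (shift B c) w (shift B c') ↔ X.cov.Path c w c' :=
  ⟨fun h => by simpa [shift_shift] using shift_path B h, shift_path B⟩

end cov

end LG

section red

variable {S : Type}

theorem Red.left {w w' : List S} (h : Red (w ++ w')) : Red w :=
  (List.isChain_append.1 h).1

theorem Red.right {w w' : List S} (h : Red (w ++ w')) : Red w' :=
  (List.isChain_append.1 h).2.1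

theorem Red.rev {w : List S} (h : Red w) : Red w.reverse := by
  unfold Red at *
  rw [List.isChain_reverse]
  exact h.imp fun a b hab => hab.symm

theorem red_nil : Red ([] : List S) := List.isChain_nil

theorem red_singleton (s : S) : Red [s] := List.isChain_singleton s

theorem red_cons_cons {s s' : S} {w : List S} : Red (s :: s' :: w) ↔ s ≠ s' ∧ Red (s' :: w) :=
  List.isChain_cons_cons

theorem Red.tail {s : S} {w : List S} (h : Red (s :: w)) : Red w := by
  have : Red ([s] ++ w) := h
  exact this.right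

/-- Reduction of a word, together with the fact that reduction does not change the ends of
paths. -/
theorem exists_red (w : List S) : ∃ w' : List S, Red w' ∧ w'.length ≤ w.length ∧
    (w'.length % 2 = w.length % 2) ∧
    ∀ {V : Type} (X : LG S V) (x y : V), X.Path x w y → X.Path x w' y := by
  classical
  induction w with
  | nil => exact ⟨[], red_nil, le_rfl, rfl, fun X x y h => h⟩
  | cons s w ih =>
    obtain ⟨w', hr, hl, hm, hp⟩ := ih
    rcases w' with _ | ⟨s', w''⟩
    · refine ⟨[s], red_singleton s, by simp, ?_, ?_⟩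
      · simp only [List.length_nil, Nat.zero_mod] at hm
        simp only [List.length_cons, List.length_nil]
        omega
      · rintro V X x y ⟨z, hz, h⟩
        exact ⟨z, hz, hp X z y h⟩
    · by_cases hs : s = s'
      · subst hs
        refine ⟨w'', hr.tail, ?_, ?_, ?_⟩
        · simp only [List.length_cons] at hl ⊢; omega
        · simp only [List.length_cons] at hm ⊢; omega
        · rintro V X x y ⟨z, hz, h⟩
          obtain ⟨u, hu, h'⟩ := hp X z y h
          obtain rfl := X.func (X.symm hz) hu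
          exact h'
      · refine ⟨s :: s' :: w'', red_cons_cons.2 ⟨hs, hr⟩, ?_, ?_, ?_⟩
        · simp only [List.length_cons] at hl ⊢; omega
        · simp only [List.length_cons] at hm ⊢; omega
        · rintro V X x y ⟨z, hz, h⟩
          exact ⟨z, hz, hp X z y h⟩

end red

section charts

variable {S Q V W : Type} [DecidableEq Q] [DecidableEq W] {T : Theta S Q} {X : LG S V}
  {β : V → Finset W} {ω : S → V → ℤ}

open LG

theorem symmDiff_image {A B : Finset (Sym2 Q)} {j : Sym2 Q → W} (hj : Function.Injective j) :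
    (A ∆ B).image j = A.image j ∆ B.image j :=
  Finset.image_symmDiff _ _ hj

/-- Along a word readable in `T` from a charted pair, the state can be read too, and the pair
stays charted. -/
theorem Charted.step {x : V} {q q' : Q} {s : S} (h : Charted T X β ω x q) (hE : T.E s q q') :
    ∃ y, X.E s x y ∧ Charted T X β ω y q' := by
  obtain ⟨ι, j, ψ, hj, h0, hc⟩ := h
  have hE0 : T.cov.E s (q, ∅) (q', ∅ ∆ {s(q, q')}) := cov_lift hE ∅
  have h1 := (hc _ (Reach.refl _)).2 s _ hE0
  have hr1 : T.cov.Reach (q, ∅) (q', ∅ ∆ {s(q, q')}) := Reach.step (Reach.refl _) hE0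
  rw [h0] at h1
  have hsh : (shift {s(q, q')} (q', ∅) : Q × Finset (Sym2 Q)) = (q', ∅ ∆ {s(q, q')}) := rfl
  refine ⟨ι (q', ∅ ∆ {s(q, q')}), h1.1, fun c => ι (shift {s(q, q')} c), j,
    fun c => ψ (shift {s(q, q')} c), hj, rfl, fun c hcr => ?_⟩
  have hr : T.cov.Reach (q, ∅) (shift {s(q, q')} c) := by
    obtain ⟨w, hw⟩ := hcr
    have := shift_path {s(q, q')} hw
    rw [hsh] at this
    exact hr1.path this
  refine ⟨?_, fun s' c' hcc' => (hc _ hr).2 s' _ (shift_E _ hcc')⟩
  rw [(hc _ hr).1, (hc _ hr1).1]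
  simp only [shift]
  rw [symmDiff_image hj, symmDiff_image hj]
  simp only [Finset.image_empty]
  rw [symmDiff_assoc, symmDiff_assoc]
  congr 1
  rw [← symmDiff_assoc, ← Finset.bot_eq_empty, bot_symmDiff]
  exact symmDiff_comm _ _

theorem Charted.step' {x y : V} {q q' : Q} {s : S} (h : Charted T X β ω x q)
    (hE : T.E s q q') (hx : X.E s x y) : Charted T X β ω y q' := by
  obtain ⟨z, hz, h⟩ := h.step hE
  rwa [X.func hx hz]

theorem Charted.path {q' : Q} {w : List S} : ∀ {x : V} {q : Q}, Charted T X β ω x q →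
    T.Path q w q' → ∃ y, X.Path x w y ∧ Charted T X β ω y q' := by
  induction w with
  | nil => intro x q h hp; exact ⟨x, rfl, by rwa [← (show q = q' from hp)]⟩
  | cons s w ih =>
    rintro x q h ⟨q1, hq1, hp⟩
    obtain ⟨y, hy, h1⟩ := h.step hq1
    obtain ⟨z, hz, h2⟩ := ih h1 hp
    exact ⟨z, ⟨y, hy, hz⟩, h2⟩

theorem Charted.path' {x y : V} {q q' : Q} {w : List S} (h : Charted T X β ω x q)
    (hp : T.Path q w q') (hx : X.Path x w y) : Charted T X β ω y q' := by
  obtain ⟨z, hz, h⟩ := h.path hp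
  rwa [hx.func hz]

theorem Conn.trans {x y z : V} {n m : ℕ} (h : Conn T X β ω x y n) (h' : Conn T X β ω y z m) :
    Conn T X β ω x z (n + m) := by
  induction h' with
  | refl => simpa using h
  | step _ hc hr hp ih => rw [← add_assoc]; exact Conn.step ih hc hr hp

theorem Conn.single {x y : V} {q : Q} {w : List S} (hc : Charted T X β ω x q)
    (hr : T.Readable q w) (hp : X.Path x w y) : Conn T X β ω x y (T.g q) := by
  simpa using Conn.step (Conn.refl x) hc hr hp

theorem g_path {q' : Q} {w : List S} : ∀ {q : Q}, T.Path q w q' → T.g q' = T.g q := by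
  induction w with
  | nil => intro q h; rw [show q = q' from h]
  | cons s w ih =>
    rintro q ⟨q1, h1, h⟩
    rw [ih h, T.g_edge h1]

theorem Conn.symm {x y : V} {n : ℕ} (h : Conn T X β ω x y n) : Conn T X β ω y x n := by
  induction h with
  | refl => exact Conn.refl _
  | step _ hc hr hp ih =>
    obtain ⟨q', hq'⟩ := hr
    have h2 := hc.path' hq' hp
    have := (Conn.single h2 ⟨_, hq'.rev⟩ hp.rev).trans ih
    rw [g_path hq', add_comm] at this
    exact this

end charts

end Pool.Agent.TH950.FC
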