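import Pool.Agent.TH950.FC.Base

set_option autoImplicit false

/-!
# Gluing a block to a state: the interface
-/

namespace Pool.Agent.TH950.FC

open scoped symmDiff

variable {S Q H : Type} [DecidableEq Q]

/-- The overlap at `(x₀, q₀)` as a set of vertices of the cover. -/
def D0 (T : Theta S Q) (st : St S Q H) (x₀ : Vt Q) (q₀ : Q) : Set (Q × Finset (Sym2 Q)) :=
  {c | ∃ w y, st.Common T x₀ q₀ w y ∧ T.cov.Path (q₀, ∅) w c}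

/-- `st'` is obtained from `st` by gluing the block of `q₀` at `x₀` along the overlap `D0`. -/
structure Glue (T : Theta S Q) (st st' : St S Q H) (x₀ : Vt Q) (q₀ : Q)
    (ι : Q × Finset (Sym2 Q) → Vt Q) (j : Sym2 Q → Wt Q) : Prop where
  ext : Ext st st'
  mem : x₀ ∈ st.dom
  notCh : ¬ st.Ch T x₀ q₀
  base : ι (q₀, ∅) = x₀
  inj : ∀ c c', T.cov.Reach (q₀, ∅) c → T.cov.Reach (q₀, ∅) c' → ι c = ι c' → c = c'
  dom_iff : ∀ x, x ∈ st'.dom ↔ x ∈ st.dom ∨ ∃ c, T.cov.Reach (q₀, ∅) c ∧ x = ι c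
  E_iff : ∀ s x y, st'.X.E s x y ↔ st.X.E s x y ∨
    ∃ c c', T.cov.Reach (q₀, ∅) c ∧ T.cov.E s c c' ∧ x = ι c ∧ y = ι c'
  old_iff : ∀ c, T.cov.Reach (q₀, ∅) c → (ι c ∈ st.dom ↔ c ∈ D0 T st x₀ q₀)
  D0_path : ∀ w c y, T.cov.Path (q₀, ∅) w c → st.X.Path x₀ w y → ι c = y
  full : ∀ s x y, st'.X.E s x y → x ∈ st.dom → y ∈ st.dom → st.X.E s x y
  j_inj : Function.Injective j
  wall : ∀ c, T.cov.Reach (q₀, ∅) c → st'.β (ι c) = st'.β x₀ ∆ c.2.image j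
  j_old : ∀ e ∈ edgesOf T (D0 T st x₀ q₀), (j e).1 < st.t
  j_new : ∀ e, e ∉ edgesOf T (D0 T st x₀ q₀) → (j e).1 = st.t
  chart : ∀ c, T.cov.Reach (q₀, ∅) c → st'.Ch T (ι c) c.1

/-- The shape of the overlaps of uncharted pairs of `st'`. -/
structure Shape (T : Theta S Q) (st st' : St S Q H) (x₀ : Vt Q) (q₀ : Q)
    (ι : Q × Finset (Sym2 Q) → Vt Q) : Prop where
  out : ∀ x ∈ st.dom, ∀ q, ¬ st'.Ch T x q → ∀ w y, st'.Common T x q w y →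
    ∃ w₁ w₂ z, w = w₁ ++ w₂ ∧ st.Common T x q w₁ z ∧
      ((w₂ = [] ∧ z = y) ∨ (w₂ ≠ [] ∧ y ∉ st.dom ∧ ∃ c c', c ∈ D0 T st x₀ q₀ ∧ ι c = z ∧
        T.cov.Path c w₂ c' ∧ ι c' = y ∧ 100 * w₂.length ≤ T.g q₀ ∧ 100 * w₂.length ≤ T.g q ∧
        (c.2 ∆ c'.2).card = w₂.length ∧ ∀ e ∈ c.2 ∆ c'.2, e ∉ edgesOf T (D0 T st x₀ q₀)))
  inn : ∀ c₀, T.cov.Reach (q₀, ∅) c₀ → ι c₀ ∉ st.dom → ∀ q, ¬ st'.Ch T (ι c₀) q → ∀ w y,
    st'.Common T (ι c₀) q w y →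
    (∃ c', T.cov.PathIn (D0 T st x₀ q₀)ᶜ c₀ w c' ∧ ι c' = y ∧ y ∉ st.dom ∧
      100 * w.length ≤ T.g q₀ ∧ 100 * w.length ≤ T.g q ∧ (c₀.2 ∆ c'.2).card = w.length) ∨
    (∃ w₁ w₂ c q', w = w₁ ++ w₂ ∧ w₁ ≠ [] ∧ c ∈ D0 T st x₀ q₀ ∧ T.cov.Path c₀ w₁ c ∧
      100 * w₁.length ≤ T.g q₀ ∧ 100 * w₁.length ≤ T.g q ∧ (c₀.2 ∆ c.2).card = w₁.length ∧
      (∀ e ∈ c₀.2 ∆ c.2, e ∉ edgesOf T (D0 T st x₀ q₀)) ∧
      T.Path q w₁ q' ∧ st'.Common T (ι c) q' w₂ y ∧ ¬ st'.Ch T (ι c) q')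

/-- Statement of the block dichotomy. -/
def BlockDichotomy (S Q : Type) [DecidableEq Q] : Prop :=
  ∀ (T : Theta S Q) (q₀ : Q) (P₁ P₂ : Set (Q × Finset (Sym2 Q))),
    (∀ c ∈ P₁, T.cov.Reach (q₀, ∅) c) → (∀ c ∈ P₂, T.cov.Reach (q₀, ∅) c) →
    (∀ c ∈ P₁, ∀ c' ∈ P₁, ∃ u, Red u ∧ T.cov.PathIn P₁ c u c' ∧ 100 * u.length ≤ 9 * T.g q₀) →
    (∀ c ∈ P₂, ∀ c' ∈ P₂, ∃ u, Red u ∧ T.cov.PathIn P₂ c u c' ∧ 100 * u.length ≤ 9 * T.g q₀) →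
    (∀ c₁ ∈ P₁, ∀ c₂ ∈ P₂,
      T.g q₀ ≤ 4 * {e | e ∈ c₁.2 ∆ c₂.2 ∧ e ∉ edgesOf T P₁ ∧ e ∉ edgesOf T P₂}.ncard) ∨
    (∃ c₁ ∈ P₁, ∃ c₂ ∈ P₂, ∃ u, Red u ∧ T.cov.Path c₁ u c₂ ∧
      (c₁.2 ∆ c₂.2).card = u.length ∧ 4 * u.length < T.g q₀ ∧
      (∀ e ∈ c₁.2 ∆ c₂.2, e ∉ edgesOf T P₁ ∧ e ∉ edgesOf T P₂) ∧
      (c₁ = c₂ ∨ Disjoint (edgesOf T P₁) (edgesOf T P₂)))

/-- A graph `X` obtained from its part `D` by attaching copies of covers (the pairs `(x, q)`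
with `N x q` are the positions in these new blocks), and a relation `nc` (not charted). -/
structure RelSetup {V : Type} (T : Theta S Q) (X : LG S V) (D : Set V)
    (N nc : V → Q → Prop) : Prop where
  N_step : ∀ {s x q q'}, N x q → T.E s q q' → ∃ y, X.E s x y ∧ N y q'
  cover : ∀ {s x y}, X.E s x y → ¬ (x ∈ D ∧ y ∈ D) → ∃ q q', N x q ∧ T.E s q q'
  meet : ∀ {y q q'}, N y q → N y q' → q ≠ q' → ∃ u b, Red u ∧ X.Hit D y u b ∧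
    T.Readable q u ∧ T.Readable q' u
  short : ∀ {b b' q q' u}, N b q → b ∈ D → T.Path q u q' → X.Path b u b' → b' ∈ D →
    ∃ z, Red z ∧ X.PathIn D b z b' ∧ T.Path q z q' ∧ 100 * z.length ≤ 4 * T.g q
  nc_step : ∀ {s x y q q'}, nc x q → X.E s x y → T.E s q q' → nc y q'
  nc_N : ∀ {x q}, nc x q → ¬ N x q

/-- Statement of the abstract path lemmas. -/
structure RelLemmas (S Q V : Type) [DecidableEq Q] : Prop where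
  unique : ∀ (T : Theta S Q) (X : LG S V) (D : Set V) (N nc : V → Q → Prop),
    RelSetup T X D N nc → ∀ (y : V) (q : Q) (u u' : List S) (b b' : V),
    N y q → Red u → Red u' → T.Readable q u → T.Readable q u' →
    X.Hit D y u b → X.Hit D y u' b' → 100 * u.length ≤ 3 * T.g q →
    100 * u'.length ≤ 3 * T.g q → u = u'
  leave : ∀ (T : Theta S Q) (X : LG S V) (D : Set V) (N nc : V → Q → Prop),
    RelSetup T X D N nc → ∀ (x y z : V) (q : Q) (s : S) (w : List S),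
    nc x q → x ∈ D → Red (s :: w) → X.E s x y → y ∉ D → X.Path y w z →
    T.Readable q (s :: w) →
    z ∉ D ∧ 100 * (w.length + 1) ≤ T.g q ∧ ∃ q', N x q' ∧ T.Readable q' (s :: w)
  gen : ∀ (T : Theta S Q) (X : LG S V) (D : Set V) (N nc : V → Q → Prop),
    RelSetup T X D N nc → ∀ (x y : V) (q : Q) (w : List S),
    nc x q → Red w → X.Path x w y → T.Readable q w →
    100 * w.length ≤ 2 * T.g q ∨
    ∃ w₁ w₂ w₃ b b', w = w₁ ++ (w₂ ++ w₃) ∧ X.Path x w₁ b ∧ X.PathIn D b w₂ b' ∧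
      X.Path b' w₃ y ∧ 100 * (w₁.length + w₃.length) ≤ 2 * T.g q

end Pool.Agent.TH950.FC
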