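import Pool.Agent.TH950.FC.GlueDefs

set_option autoImplicit false

/-!
# The shape of overlaps after gluing a block
-/

namespace Pool.Agent.TH950.FC

open scoped symmDiff
open LG

set_option linter.unusedSectionVars false

variable {S Q H : Type} [DecidableEq Q]

/-! ### General facts -/

theorem edge_mem_of_path {X : LG S Q} {w : List S} : ∀ {c c' : Q × Finset (Sym2 Q)},
    X.cov.Path c w c' → ∀ e ∈ c.2 ∆ c'.2, ∃ u t v a b, w = u ++ t :: v ∧ X.Path c.1 u a ∧
      X.E t a b ∧ X.Path b v c'.1 ∧ e = s(a, b) := by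
  induction w with
  | nil =>
    intro c c' h e he
    rw [path_nil] at h
    subst h
    simp at he
  | cons s w ih =>
    rintro c c' ⟨c1, h1, h⟩ e he
    have h2 : c.2 ∆ c'.2 = {s(c.1, c1.1)} ∆ (c1.2 ∆ c'.2) := by
      rw [h1.2]
      rw [← symmDiff_assoc, ← symmDiff_assoc, symmDiff_comm {s(c.1, c1.1)} c.2]
      congr 1
      rw [symmDiff_symmDiff_cancel_right]
    rw [h2, Finset.mem_symmDiff] at he
    rcases he with ⟨he, -⟩ | ⟨he, -⟩
    · rw [Finset.mem_singleton] at he
      exact ⟨[], s, w, c.1, c1.1, rfl, rfl, h1.1, h.proj, he⟩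
    · obtain ⟨u, t, v, a, b, rfl, hu, ht, hv, he⟩ := ih h e he
      exact ⟨s :: u, t, v, a, b, rfl, ⟨c1.1, h1.1, hu⟩, ht, hv, he⟩

theorem girth_nil {T : Theta S Q} {q : Q} {w : List S} (hw : Red w) (hp : T.Path q w q)
    (hl : w.length < T.g q) : w = [] :=
  T.girth hw red_nil hp rfl (by simpa using hl)

theorem cov_card {T : Theta S Q} {w : List S} (hw : Red w) : ∀ {c c' : Q × Finset (Sym2 Q)},
    T.cov.Path c w c' → w.length < T.g c.1 → (c.2 ∆ c'.2).card = w.length := by
  induction w using List.reverseRecOn with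
  | nil =>
    intro c c' h _
    rw [path_nil] at h
    subst h
    simp
  | append_singleton w s ih =>
    intro c c' h hl
    obtain ⟨c1, h1, h2⟩ := path_snoc.1 h
    rw [List.length_append, List.length_singleton] at hl ⊢
    have h3 := ih hw.left h1 (by omega)
    have h4 : c.2 ∆ c'.2 = (c.2 ∆ c1.2) ∆ {s(c1.1, c'.1)} := by
      rw [h2.2, symmDiff_assoc]
    have h5 : s(c1.1, c'.1) ∉ c.2 ∆ c1.2 := by
      intro he
      obtain ⟨u, t, v, a, b, rfl, hu, ht, hv, he⟩ := edge_mem_of_path h1 _ he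
      rw [List.length_append, List.length_cons] at hl
      have hga : T.g a = T.g c.1 := g_path hu
      have hgb : T.g b = T.g c.1 := by rw [T.g_edge ht, hga]
      rcases Sym2.eq_iff.1 he with ⟨h6, h7⟩ | ⟨h6, h7⟩
      · -- a = c1.1
        have : t :: v = [] := girth_nil (q := a) (hw.left.right) ⟨b, ht, by rw [← h6]; exact hv⟩
          (by rw [List.length_cons]; omega)
        exact List.cons_ne_nil _ _ this
      · have hv0 : v = [] := girth_nil (q := b) hw.left.right.tail (by rw [← h6] at hv ⊢; exact hv)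
          (by omega)
        subst hv0
        have hr : Red [t, s] := by
          have : Red (u ++ [t, s]) := by simpa using hw
          exact this.right
        have h8 : T.Path a [t, s] a := by
          refine ⟨b, ht, a, ?_, rfl⟩
          have := h2.1
          rw [h6, h7] at this
          exact this
        have := girth_nil hr h8 (by have := T.hundred_le a; simp; omega)
        exact List.cons_ne_nil _ _ this
    rw [h4, symmDiff_comm, ← h3]
    have h6 : ({s(c1.1, c'.1)} : Finset (Sym2 Q)) ∆ (c.2 ∆ c1.2) =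
        insert s(c1.1, c'.1) (c.2 ∆ c1.2) := by
      ext x
      simp only [Finset.mem_symmDiff, Finset.mem_singleton, Finset.mem_insert]
      constructor
      · rintro (⟨h, -⟩ | ⟨h, -⟩)
        · exact Or.inl h
        · exact Or.inr h
      · rintro (rfl | h)
        · exact Or.inl ⟨rfl, by simpa [Finset.mem_symmDiff] using h5⟩
        · by_cases hx : x = s(c1.1, c'.1)
          · subst hx; exact absurd h (by simpa [Finset.mem_symmDiff] using h5)
          · exact Or.inr ⟨h, hx⟩
    rw [h6, Finset.card_insert_of_notMem h5]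

theorem Charted.mono {T : Theta S Q} {st st' : St S Q H} (hE : Ext st st')
    (hd : ∀ {s x y}, st.X.E s x y → x ∈ st.dom) {x : Vt Q} {q : Q} (hx : x ∈ st.dom)
    (h : st.Ch T x q) : st'.Ch T x q := by
  obtain ⟨ι, j, ψ, hj, h0, hc⟩ := h
  have hdom : ∀ c, T.cov.Reach (q, ∅) c → ι c ∈ st.dom := by
    rintro c ⟨w, hw⟩
    rcases List.eq_nil_or_concat w with rfl | ⟨w', s, rfl⟩
    · rw [path_nil] at hw; subst hw; rwa [h0]
    · rw [List.concat_eq_append] at hw
      obtain ⟨c1, h1, h2⟩ := path_snoc.1 hw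
      exact hd (st.X.symm ((hc c1 ⟨w', h1⟩).2 s c h2).1)
  refine ⟨ι, j, ψ, hj, h0, fun c hcr => ⟨?_, fun s c' hcc' => ?_⟩⟩
  · rw [hE.β (hdom c hcr), hE.β hx]; exact (hc c hcr).1
  · have := (hc c hcr).2 s c' hcc'
    exact ⟨hE.E this.1, by rw [hE.ω this.1]; exact this.2⟩

/-- Composition of common words. -/
theorem common_comp {T : Theta S Q} {st : St S Q H} {x y z : Vt Q} {q q' r : Q} {w w' : List S}
    (h : st.X.Path x w y) (hq : T.Path q w q') (h' : st.X.Path y w' z) (hq' : T.Path q' w' r) :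
    ∃ u, st.Common T x q u z ∧ T.Path q u r ∧ u.length ≤ w.length + w'.length := by
  obtain ⟨u, hu, hl, -, hp⟩ := exists_red (w ++ w')
  exact ⟨u, ⟨hu, hp _ _ _ (h.append h'), r, hp _ _ _ (hq.append hq')⟩,
    hp _ _ _ (hq.append hq'), by simpa using hl⟩

/-! ### Facts about the overlap -/

section glue

variable [Group H] {T : Theta S Q} {a : S → H} {st st' : St S Q H} {x₀ : Vt Q} {q₀ : Q}
  {ι : Q × Finset (Sym2 Q) → Vt Q} {j : Sym2 Q → Wt Q}

theorem D0.reach {c : Q × Finset (Sym2 Q)} (hc : c ∈ D0 T st x₀ q₀) :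
    T.cov.Reach (q₀, ∅) c := by
  obtain ⟨w, y, -, hw⟩ := hc
  exact ⟨w, hw⟩

theorem reach_g {c : Q × Finset (Sym2 Q)} (hc : T.cov.Reach (q₀, ∅) c) : T.g c.1 = T.g q₀ := by
  obtain ⟨w, hw⟩ := hc
  exact g_path hw.proj

theorem D0.common (hG : Glue T st st' x₀ q₀ ι j) {c : Q × Finset (Sym2 Q)}
    (hc : c ∈ D0 T st x₀ q₀) : ∃ w, st.Common T x₀ q₀ w (ι c) ∧ T.cov.Path (q₀, ∅) w c := by
  obtain ⟨w, y, h, hw⟩ := hc
  have := hG.D0_path w c y hw h.2.1
  subst this
  exact ⟨w, h, hw⟩

theorem D0.mem (hG : Glue T st st' x₀ q₀ ι j) {c : Q × Finset (Sym2 Q)}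
    (hc : c ∈ D0 T st x₀ q₀) : ι c ∈ st.dom := (hG.old_iff c (D0.reach hc)).2 hc

/-- Membership in the overlap through an arbitrary word from a point of the overlap. -/
theorem D0.of_path (hG : Glue T st st' x₀ q₀ ι j) {c c' : Q × Finset (Sym2 Q)} {w : List S}
    {y : Vt Q} (hc : c ∈ D0 T st x₀ q₀) (hw : T.cov.Path c w c') (hp : st.X.Path (ι c) w y) :
    c' ∈ D0 T st x₀ q₀ ∧ ι c' = y := by
  obtain ⟨w0, h0, hw0⟩ := D0.common hG hc
  have h1 := hw0.append hw
  have h2 := h0.2.1.append hp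
  obtain ⟨u, hu, -, -, hup⟩ := exists_red (w0 ++ w)
  exact ⟨⟨u, y, ⟨hu, hup _ _ _ h2, _, (hup _ _ _ h1).proj⟩, hup _ _ _ h1⟩, hG.D0_path _ _ _ h1 h2⟩

theorem D0.notCh (hG : Glue T st st' x₀ q₀ ι j) {c : Q × Finset (Sym2 Q)}
    (hc : c ∈ D0 T st x₀ q₀) : ¬ st.Ch T (ι c) c.1 := by
  intro h
  obtain ⟨w0, h0, hw0⟩ := D0.common hG hc
  exact hG.notCh (Charted.path' h hw0.proj.rev h0.2.1.rev)

/-- The reduced word between two points of the overlap. -/
theorem D0.word (hst : Good T a 6 st) (hG : Glue T st st' x₀ q₀ ι j)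
    {c c' : Q × Finset (Sym2 Q)} (hc : c ∈ D0 T st x₀ q₀) (hc' : c' ∈ D0 T st x₀ q₀) :
    ∃ u, st.Common T (ι c) c.1 u (ι c') ∧ T.cov.Path c u c' ∧ 100 * u.length ≤ 6 * T.g q₀ := by
  obtain ⟨w, h, hw⟩ := D0.common hG hc
  obtain ⟨w', h', hw'⟩ := D0.common hG hc'
  obtain ⟨u, hu, -, -, hup⟩ := exists_red (w.reverse ++ w')
  have h1 := hup _ _ _ (hw.rev.append hw')
  have hcom : st.Common T (ι c) c.1 u (ι c') :=
    ⟨hu, hup _ _ _ (h.2.1.rev.append h'.2.1), _, h1.proj⟩
  refine ⟨u, hcom, h1, ?_⟩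
  have := (hst.inv _ (D0.mem hG hc) _ (D0.notCh hG hc) _ _ hcom).1
  rwa [reach_g (D0.reach hc)] at this

/-- `u` read from `c` has all its vertices, except the first one, outside the overlap. -/
def Leaves (T : Theta S Q) (st : St S Q H) (x₀ : Vt Q) (q₀ : Q) (c : Q × Finset (Sym2 Q))
    (u : List S) : Prop :=
  ∀ u₁ u₂ c₁, u = u₁ ++ u₂ → u₁ ≠ [] → T.cov.Path c u₁ c₁ → c₁ ∉ D0 T st x₀ q₀

/-- A short path which has left the overlap does not come back. -/
theorem no_return (hst : Good T a 6 st) (hG : Glue T st st' x₀ q₀ ι j)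
    {c c' c'' : Q × Finset (Sym2 Q)} {u₁ u₂ : List S} (hc : c ∈ D0 T st x₀ q₀)
    (h1 : T.cov.Path c u₁ c') (hc' : c' ∉ D0 T st x₀ q₀) (h2 : T.cov.Path c' u₂ c'')
    (hr : Red (u₁ ++ u₂)) (hl : 100 * (u₁ ++ u₂).length ≤ T.g q₀) : c'' ∉ D0 T st x₀ q₀ := by
  intro hc''
  obtain ⟨z, hz, hzp, hzl⟩ := D0.word hst hG hc hc''
  have hg := reach_g (D0.reach hc)
  have hg0 := T.hundred_le q₀
  have : z = u₁ ++ u₂ := T.girth hz.1 hr hzp.proj (h1.append h2).proj (by rw [hg]; omega)
  subst this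
  obtain ⟨y, hy, -⟩ := path_append.1 hz.2.1
  exact hc' (D0.of_path hG hc h1 hy).1

/-- The edges of a short path leaving the overlap are not edges of the overlap. -/
theorem leaves_edges (hst : Good T a 6 st) (hG : Glue T st st' x₀ q₀ ι j)
    {c c' : Q × Finset (Sym2 Q)} {u : List S} (hc : c ∈ D0 T st x₀ q₀)
    (h : T.cov.Path c u c') (hr : Red u) (hl : 100 * u.length ≤ T.g q₀)
    (hL : Leaves T st x₀ q₀ c u) : ∀ e ∈ c.2 ∆ c'.2, e ∉ edgesOf T (D0 T st x₀ q₀) := by
  rintro e he ⟨s, d, d', hd, hd', hdd', he'⟩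
  obtain ⟨u₁, t, u₂, a, b, rfl, hu₁, ht, hu₂, rfl⟩ := edge_mem_of_path h e he
  have hg := reach_g (D0.reach hc)
  have hg0 := T.hundred_le q₀
  -- the end `b` is the projection of a point of the overlap
  obtain ⟨db, hdb, hb⟩ : ∃ db ∈ D0 T st x₀ q₀, db.1 = b := by
    rcases Sym2.eq_iff.1 he' with ⟨-, h7⟩ | ⟨-, h7⟩
    · exact ⟨d', hd', h7.symm⟩
    · exact ⟨d, hd, h7.symm⟩
  obtain ⟨z, hz, hzp, hzl⟩ := D0.word hst hG hc hdb
  have h3 : T.Path c.1 (u₁ ++ [t]) b := hu₁.append (path_singleton.2 ht)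
  have hr' : Red (u₁ ++ [t]) := by
    have : Red ((u₁ ++ [t]) ++ u₂) := by simpa using hr
    exact this.left
  have h4 : z = u₁ ++ [t] := T.girth hz.1 hr' (by rw [← hb]; exact hzp.proj) h3 (by
    rw [hg]
    simp only [List.length_append, List.length_cons, List.length_nil] at hl ⊢
    omega)
  subst h4
  exact hL (u₁ ++ [t]) u₂ db (by simp) (by simp) hzp hdb

/-- Two short paths leaving the overlap with the same end coincide. -/
theorem leaves_unique (hst : Good T a 6 st) (hG : Glue T st st' x₀ q₀ ι j)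
    {c d c' d' : Q × Finset (Sym2 Q)} {u v : List S} (hc : c ∈ D0 T st x₀ q₀)
    (hd : d ∈ D0 T st x₀ q₀) (hu : T.cov.Path c u c') (hv : T.cov.Path d v d')
    (h1 : c'.1 = d'.1)
    (hru : Red u) (hrv : Red v) (hlu : 100 * u.length ≤ T.g q₀) (hlv : 100 * v.length ≤ T.g q₀)
    (hLu : Leaves T st x₀ q₀ c u) (hLv : Leaves T st x₀ q₀ d v) :
    c = d ∧ u = v := by
  obtain ⟨z, hz, hzp, hzl⟩ := D0.word hst hG hc hd
  have hg := reach_g (D0.reach hc)
  have hg0 := T.hundred_le q₀
  have hred : Red (z ++ v) := by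
    rw [Red, List.isChain_append]
    refine ⟨hz.1, hrv, ?_⟩
    intro s hs s' hs' hss
    subst hss
    -- the last letter of z and the first letter of v lead to the same vertex
    obtain ⟨z', rfl⟩ : ∃ z', z = z' ++ [s] := by
      rcases List.eq_nil_or_concat z with rfl | ⟨z', t, rfl⟩
      · simp at hs
      · simp at hs; subst hs; exact ⟨z', by simp⟩
    obtain ⟨v', rfl⟩ : ∃ v', v = s :: v' := by
      rcases v with _ | ⟨t, v'⟩
      · simp at hs'
      · simp at hs'; subst hs'; exact ⟨v', rfl⟩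
    obtain ⟨e, he, he2⟩ := path_snoc.1 hzp
    obtain ⟨f, hf, hf2⟩ := hv
    have := T.cov.func (T.cov.symm he2) hf
    subst this
    obtain ⟨y, hy, -⟩ := path_snoc.1 hz.2.1
    exact hLv [s] v' e rfl (by simp) (path_singleton.2 hf) (D0.of_path hG hc he hy).1
  have h2 : u = z ++ v := T.girth hru hred hu.proj (by
      rw [h1]; exact (hzp.append hv).proj) (by
    rw [hg]; simp only [List.length_append]; omega)
  rcases z with _ | ⟨s, z⟩
  · rw [path_nil] at hzp
    exact ⟨hzp, by simpa using h2⟩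
  · exfalso
    obtain ⟨e, he, he2⟩ := hzp
    obtain ⟨y, hy, -⟩ := hz.2.1
    exact hLu [s] (z ++ v) e (by simpa using h2) (by simp) (path_singleton.2 he)
      (D0.of_path hG hc (path_singleton.2 he) (path_singleton.2 hy)).1

/-- Overlap edges from an old vertex: either old, or leaving the overlap. -/
theorem edge_cases (hG : Glue T st st' x₀ q₀ ι j) {s : S} {x y : Vt Q}
    (h : st'.X.E s x y) : st.X.E s x y ∨ ∃ c c', T.cov.Reach (q₀, ∅) c ∧ T.cov.E s c c' ∧
      x = ι c ∧ y = ι c' ∧ T.cov.Reach (q₀, ∅) c' ∧ (c ∉ D0 T st x₀ q₀ ∨ c' ∉ D0 T st x₀ q₀) := by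
  by_cases h0 : st.X.E s x y
  · exact Or.inl h0
  · rcases (hG.E_iff s x y).1 h with h1 | ⟨c, c', hc, hcc, rfl, rfl⟩
    · exact absurd h1 h0
    · refine Or.inr ⟨c, c', hc, hcc, rfl, rfl, hc.step hcc, ?_⟩
      by_contra hcon
      push Not at hcon
      exact h0 (hG.full s _ _ h (D0.mem hG hcon.1) (D0.mem hG hcon.2))

theorem common_left {st : St S Q H} {x : Vt Q} {q : Q} {w w' : List S} {z : Vt Q}
    (h : st.Common T x q (w ++ w') z) : ∃ y q', st.Common T x q w y ∧ T.Path q w q' ∧
      st.Common T y q' w' z := by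
  obtain ⟨hr, hp, hq⟩ := h
  obtain ⟨y, h1, h2⟩ := path_append.1 hp
  obtain ⟨q', h3, h4⟩ := readable_append.1 hq
  exact ⟨y, q', ⟨hr.left, h1, _, h3⟩, h3, hr.right, h2, h4⟩

/-- The one-sided shape lemma, with all the information. -/
theorem out_aux (hst : Good T a 6 st) (hG : Glue T st st' x₀ q₀ ι j)
    {x : Vt Q} (hx : x ∈ st.dom) {q : Q} (hq : ¬ st'.Ch T x q) {w : List S} : ∀ {y : Vt Q},
    st'.Common T x q w y →
    ∃ w₁ w₂ z, w = w₁ ++ w₂ ∧ st.Common T x q w₁ z ∧
      ((w₂ = [] ∧ z = y) ∨ (w₂ ≠ [] ∧ y ∉ st.dom ∧ ∃ c c', c ∈ D0 T st x₀ q₀ ∧ ι c = z ∧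
        T.cov.Path c w₂ c' ∧ ι c' = y ∧ 100 * w₂.length ≤ T.g q₀ ∧ 100 * w₂.length ≤ T.g q ∧
        c' ∉ D0 T st x₀ q₀ ∧ Leaves T st x₀ q₀ c w₂)) := by
  induction w using List.reverseRecOn with
  | nil =>
    rintro y ⟨-, hp, -⟩
    rw [path_nil] at hp
    subst hp
    exact ⟨[], [], x, rfl, ⟨red_nil, rfl, q, rfl⟩, Or.inl ⟨rfl, rfl⟩⟩
  | append_singleton w s ih =>
    intro y' h
    obtain ⟨y, q1, hw, hqw, hs⟩ := common_left h
    obtain ⟨q1', hq1'⟩ : ∃ q1', T.E s q1 q1' := by
      obtain ⟨r, hr⟩ := hs.2.2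
      exact ⟨r, path_singleton.1 hr⟩
    have hE' : st'.X.E s y y' := path_singleton.1 hs.2.1
    obtain ⟨w₁, w₂, z, rfl, h1, h2⟩ := ih hw
    rcases h2 with ⟨rfl, rfl⟩ | ⟨hw2, hy, c, c', hc, hcz, hp, hc', hl1, hl2, hcD, hL⟩
    · rw [List.append_nil] at *
      have hz : z ∈ st.dom := by
        rcases List.eq_nil_or_concat w₁ with rfl | ⟨w', t, rfl⟩
        · have := h1.2.1; rw [path_nil] at this; subst this; exact hx
        · have := h1.2.1
          rw [List.concat_eq_append] at this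
          obtain ⟨u, -, hu⟩ := path_snoc.1 this
          exact hst.edge_dom (st.X.symm hu)
      rcases edge_cases hG hE' with h3 | ⟨c, c', hcr, hcc, rfl, rfl, hcr', hor⟩
      · exact ⟨w₁ ++ [s], [], y', by simp, ⟨h.1, h1.2.1.append (path_singleton.2 h3), h.2.2⟩,
          Or.inl ⟨rfl, rfl⟩⟩
      · have hcD := (hG.old_iff c hcr).1 hz
        have hcD' : c' ∉ D0 T st x₀ q₀ := by
          rcases hor with h | h
          · exact absurd hcD h
          · exact h
        refine ⟨w₁, [s], ι c, rfl, h1, Or.inr ⟨by simp, fun h => hcD' ((hG.old_iff c' hcr').1 h),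
          c, c', hcD, rfl, path_singleton.2 hcc, rfl, ?_, ?_, hcD', ?_⟩⟩
        · simpa using T.hundred_le q₀
        · simpa using T.hundred_le q
        · rintro (_ | ⟨t, _ | ⟨t', u₁⟩⟩) u₂ c₁ hu hu0 hp
          · exact absurd rfl hu0
          · simp at hu
            rw [← hu.1] at hp
            have := T.cov.func (path_singleton.1 hp) hcc
            rwa [this]
          · simp at hu
    · rcases edge_cases hG hE' with h3 | ⟨d, d', hdr, hdd, hd, rfl, hdr', -⟩
      · exact absurd (hst.edge_dom h3) hy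
      · have hcr := D0.reach hc
        have hcc' : c' = d := hG.inj _ _ (hcr.path hp) hdr (hc'.trans hd)
        subst hcc'
        have hpp : T.cov.Path c (w₂ ++ [s]) d' := hp.append (path_singleton.2 hdd)
        obtain ⟨z', qz, hz', hqz, h4⟩ := common_left (w := w₁) (w' := w₂ ++ [s])
          (by simpa using h)
        have hzz : z' = z := by
          exact hz'.2.1.func (Path.mono (fun _ _ _ h => hG.ext.E h) h1.2.1)
        subst hzz
        have hne : c.1 ≠ qz := by
          intro hcon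
          have h5 : st'.Ch T (ι c) c.1 := hG.chart c hcr
          rw [hcz, hcon] at h5
          exact hq (Charted.path' h5 hqz.rev hz'.2.1.rev)
        have hred : Red (w₂ ++ [s]) := by
          have : Red (w₁ ++ (w₂ ++ [s])) := by simpa using h.1
          exact this.right
        have hl3 : 100 * (w₂ ++ [s]).length ≤ T.g q₀ := by
          rw [← reach_g hcr]
          exact T.piece hne hred ⟨_, hpp.proj⟩ h4.2.2
        have hl4 : 100 * (w₂ ++ [s]).length ≤ T.g q := by
          rw [← g_path hqz]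
          exact T.piece hne.symm hred h4.2.2 ⟨_, hpp.proj⟩
        have hnew : d' ∉ D0 T st x₀ q₀ :=
          no_return hst hG hc hp hcD (path_singleton.2 hdd) hred hl3
        refine ⟨w₁, w₂ ++ [s], z', by simp, h1, Or.inr ⟨by simp,
          fun h => hnew ((hG.old_iff d' hdr').1 h), c, d', hc, hcz, hpp, rfl, hl3, hl4, hnew, ?_⟩⟩
        intro u₁ u₂ c₁ hu hu0 hcp
        rcases List.eq_nil_or_concat u₂ with rfl | ⟨u₂', t, rfl⟩
        · rw [List.append_nil] at hu
          subst hu
          rwa [hcp.func hpp]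
        · rw [List.concat_eq_append, ← List.append_assoc] at hu
          have := List.append_inj_left' hu rfl
          exact hL u₁ u₂' c₁ this hu0 hcp

theorem path_dom (hst : Good T a 6 st) {x y : Vt Q} {w : List S} (hx : x ∈ st.dom)
    (h : st.X.Path x w y) : y ∈ st.dom := by
  rcases List.eq_nil_or_concat w with rfl | ⟨w', t, rfl⟩
  · rw [path_nil] at h; subst h; exact hx
  · rw [List.concat_eq_append] at h
    obtain ⟨u, -, hu⟩ := path_snoc.1 h
    exact hst.edge_dom (st.X.symm hu)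

/-- Shape of the overlaps starting outside the old part, with all the information. -/
theorem inn_aux (hst : Good T a 6 st) (hG : Glue T st st' x₀ q₀ ι j) {w : List S} :
    ∀ {c₀ : Q × Finset (Sym2 Q)} (_ : T.cov.Reach (q₀, ∅) c₀) (_ : c₀ ∉ D0 T st x₀ q₀)
    {q : Q} (_ : ¬ st'.Ch T (ι c₀) q) {y : Vt Q}, st'.Common T (ι c₀) q w y →
    (∃ c', T.cov.PathIn (D0 T st x₀ q₀)ᶜ c₀ w c' ∧ ι c' = y ∧
      100 * w.length ≤ T.g q₀ ∧ 100 * w.length ≤ T.g q) ∨
    (∃ w₁ w₂ c q', w = w₁ ++ w₂ ∧ w₁ ≠ [] ∧ c ∈ D0 T st x₀ q₀ ∧ T.cov.Path c₀ w₁ c ∧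
      100 * w₁.length ≤ T.g q₀ ∧ 100 * w₁.length ≤ T.g q ∧
      T.Path q w₁ q' ∧ st'.Common T (ι c) q' w₂ y ∧ ¬ st'.Ch T (ι c) q' ∧
      Leaves T st x₀ q₀ c w₁.reverse) := by
  induction w with
  | nil =>
    intro c₀ hr hD q hq y h
    have hp := h.2.1
    rw [path_nil] at hp
    exact Or.inl ⟨c₀, ⟨rfl, hD⟩, hp, by simp, by simp⟩
  | cons s w ih =>
    intro c₀ hr hD q hq y h
    obtain ⟨x1, hx1, hp⟩ := h.2.1
    obtain ⟨r, q1, hq1, hr1⟩ := h.2.2
    have hx0 : ι c₀ ∉ st.dom := fun h' => hD ((hG.old_iff c₀ hr).1 h')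
    rcases edge_cases hG hx1 with h3 | ⟨d, c1, hdr, hdd, hd, rfl, hc1r, -⟩
    · exact absurd (hst.edge_dom h3) hx0
    · have hcd : c₀ = d := hG.inj _ _ hr hdr hd
      subst hcd
      have hq1' : ¬ st'.Ch T (ι c1) q1 := fun hc => hq (Charted.step' hc (T.symm hq1)
        (st'.X.symm hx1))
      have hne : ∀ {c : Q × Finset (Sym2 Q)} {u : List S} {q' : Q}, T.cov.Path c₀ u c →
          T.Path q u q' → Red u → 100 * u.length ≤ T.g q₀ ∧ 100 * u.length ≤ T.g q := by
        intro c u q' hu hqu hru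
        have hne0 : c₀.1 ≠ q := by
          intro hcon
          have h5 : st'.Ch T (ι c₀) c₀.1 := hG.chart c₀ hr
          rw [hcon] at h5
          exact hq h5
        constructor
        · rw [← reach_g hr]
          exact T.piece hne0 hru ⟨_, hu.proj⟩ ⟨_, hqu⟩
        · exact T.piece hne0.symm hru ⟨_, hqu⟩ ⟨_, hu.proj⟩
      by_cases hc1 : c1 ∈ D0 T st x₀ q₀
      · right
        have hb := hne (path_singleton.2 hdd) (path_singleton.2 hq1) (red_singleton s)
        refine ⟨[s], w, c1, q1, rfl, by simp, hc1, path_singleton.2 hdd, hb.1, hb.2,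
          path_singleton.2 hq1, ⟨h.1.tail, hp, r, hr1⟩, hq1', ?_⟩
        intro u₁ u₂ c₁ hu hu0 hcp
        rw [List.reverse_singleton] at hu
        rcases u₁ with _ | ⟨t, _ | ⟨t', u₁⟩⟩
        · exact absurd rfl hu0
        · simp at hu
          rw [← hu.1] at hcp
          have := T.cov.func (path_singleton.1 hcp) (T.cov.symm hdd)
          rwa [this]
        · simp at hu
      · rcases ih hc1r hc1 hq1' ⟨h.1.tail, hp, r, hr1⟩ with
          ⟨c', hc', hcy, -, -⟩ | ⟨w₁, w₂, c, q', rfl, hw1, hc, hcp, hl1, hl2, hqp, hcom, hch, hL⟩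
        · left
          have hpp : T.cov.Path c₀ (s :: w) c' := ⟨c1, hdd, hc'.path⟩
          have hb := hne hpp ⟨q1, hq1, hr1⟩ h.1
          exact ⟨c', ⟨hD, c1, hdd, hc'⟩, hcy, hb.1, hb.2⟩
        · right
          have hpp : T.cov.Path c₀ (s :: w₁) c := ⟨c1, hdd, hcp⟩
          have hred : Red (s :: w₁) := by
            have : Red ((s :: w₁) ++ w₂) := h.1
            exact this.left
          have hb := hne hpp ⟨q1, hq1, hqp⟩ hred
          refine ⟨s :: w₁, w₂, c, q', rfl, by simp, hc, hpp, hb.1, hb.2, ⟨q1, hq1, hqp⟩, hcom,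
            hch, ?_⟩
          intro u₁ u₂ c₁ hu hu0 hcp'
          rw [List.reverse_cons] at hu
          rcases List.eq_nil_or_concat u₂ with rfl | ⟨u₂', t, rfl⟩
          · rw [List.append_nil] at hu
            subst hu
            have : c₁ = c₀ := by
              have h6 := hpp.rev
              rw [List.reverse_cons] at h6
              exact hcp'.func h6
            rwa [this]
          · rw [List.concat_eq_append, ← List.append_assoc] at hu
            have := List.append_inj_left' hu rfl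
            exact hL u₁ u₂' c₁ this hu0 hcp'

theorem shape_of_glue (hst : Good T a 6 st) (hG : Glue T st st' x₀ q₀ ι j) :
    Shape T st st' x₀ q₀ ι where
  out := by
    intro x hx q hq w y h
    obtain ⟨w₁, w₂, z, rfl, h1, h2⟩ := out_aux hst hG hx hq h
    refine ⟨w₁, w₂, z, rfl, h1, ?_⟩
    rcases h2 with h2 | ⟨hw2, hy, c, c', hc, hcz, hp, hc', hl1, hl2, hcD, hL⟩
    · exact Or.inl h2
    · right
      have hred : Red w₂ := h.1.right
      have hg := reach_g (D0.reach hc)
      have hg0 := T.hundred_le q₀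
      exact ⟨hw2, hy, c, c', hc, hcz, hp, hc', hl1, hl2, cov_card hred hp (by rw [hg]; omega),
        leaves_edges hst hG hc hp hred hl1 hL⟩
  inn := by
    intro c₀ hr hdom q hq w y h
    have hD : c₀ ∉ D0 T st x₀ q₀ := fun h' => hdom ((hG.old_iff c₀ hr).2 h')
    have hg := reach_g hr
    have hg0 := T.hundred_le q₀
    rcases inn_aux hst hG hr hD hq h with ⟨c', hc', hcy, hl1, hl2⟩ |
      ⟨w₁, w₂, c, q', rfl, hw1, hc, hcp, hl1, hl2, hqp, hcom, hch, hL⟩
    · left
      refine ⟨c', hc', hcy, ?_, hl1, hl2, cov_card h.1 hc'.path (by rw [hg]; omega)⟩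
      rw [← hcy]
      exact fun h' => hc'.mem_right ((hG.old_iff c' (hr.path hc'.path)).1 h')
    · right
      have hred : Red w₁ := h.1.left
      refine ⟨w₁, w₂, c, q', rfl, hw1, hc, hcp, hl1, hl2, cov_card hred hcp (by rw [hg]; omega),
        ?_, hqp, hcom, hch⟩
      have := leaves_edges hst hG hc hcp.rev hred.rev (by simpa using hl1) hL
      intro e he
      rw [symmDiff_comm] at he
      exact this e he

theorem beta_new (hG : Glue T st st' x₀ q₀ ι j) {c c' : Q × Finset (Sym2 Q)}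
    (hc : T.cov.Reach (q₀, ∅) c) (hc' : T.cov.Reach (q₀, ∅) c') :
    st'.β (ι c) ∆ st'.β (ι c') = (c.2 ∆ c'.2).image j := by
  rw [hG.wall c hc, hG.wall c' hc', symmDiff_image hG.j_inj, symmDiff_symmDiff_symmDiff_comm,
    symmDiff_self, bot_symmDiff]

theorem beta_old (hG : Glue T st st' x₀ q₀ ι j) {x y : Vt Q} (hx : x ∈ st.dom)
    (hy : y ∈ st.dom) : st'.β x ∆ st'.β y = st.β x ∆ st.β y := by
  rw [hG.ext.β hx, hG.ext.β hy]

theorem card_symmDiff_disjoint {W : Type} [DecidableEq W] {A B : Finset W} (h : Disjoint A B) :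
    (A ∆ B).card = A.card + B.card := by
  rw [Finset.symmDiff_eq_union h, Finset.card_union_of_disjoint h]

theorem old_new_disjoint (hst : Good T a 6 st) (hG : Glue T st st' x₀ q₀ ι j) {x y : Vt Q}
    (hx : x ∈ st.dom) (hy : y ∈ st.dom) {A : Finset (Sym2 Q)}
    (hA : ∀ e ∈ A, e ∉ edgesOf T (D0 T st x₀ q₀)) : Disjoint (st'.β x ∆ st'.β y) (A.image j) := by
  rw [beta_old hG hx hy, Finset.disjoint_left]
  intro k hk hk'
  obtain ⟨e, he, rfl⟩ := Finset.mem_image.1 hk'
  have h1 := hG.j_new e (hA e he)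
  rcases Finset.mem_symmDiff.1 hk with ⟨h2, -⟩ | ⟨h2, -⟩
  · have := hst.wall_lt hx _ h2; omega
  · have := hst.wall_lt hy _ h2; omega

/-- Bound and isometry for overlaps starting in the old part. -/
theorem inv_out (hst : Good T a 6 st) (hG : Glue T st st' x₀ q₀ ι j)
    {x : Vt Q} (hx : x ∈ st.dom) {q : Q} (hq : ¬ st'.Ch T x q) {w : List S} {y : Vt Q}
    (h : st'.Common T x q w y) :
    100 * w.length ≤ 7 * T.g q ∧ (st'.β x ∆ st'.β y).card = w.length := by
  have hq' : ¬ st.Ch T x q := fun h' => hq (Charted.mono hG.ext (fun h => hst.edge_dom h) hx h')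
  obtain ⟨w₁, w₂, z, rfl, h1, h2⟩ := (shape_of_glue hst hG).out x hx q hq w y h
  have h3 := hst.inv x hx q hq' w₁ z h1
  have hz : z ∈ st.dom := path_dom hst hx h1.2.1
  rcases h2 with ⟨rfl, rfl⟩ | ⟨hw2, hy, c, c', hc, hcz, hp, hc', hl1, hl2, hcard, hed⟩
  · rw [List.append_nil]
    exact ⟨by omega, by rw [beta_old hG hx hz]; exact h3.2⟩
  · constructor
    · rw [List.length_append]; omega
    · have h4 : st'.β x ∆ st'.β y = (st'.β x ∆ st'.β z) ∆ ((c.2 ∆ c'.2).image j) := by
        rw [← beta_new hG (D0.reach hc) ((D0.reach hc).path hp), hcz, hc',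
          symmDiff_assoc, symmDiff_symmDiff_cancel_left]
      rw [h4, card_symmDiff_disjoint (old_new_disjoint hst hG hx hz hed), List.length_append,
        beta_old hG hx hz, h3.2, Finset.card_image_of_injective _ hG.j_inj, hcard]

theorem mem_dom_cases (hG : Glue T st st' x₀ q₀ ι j) {x : Vt Q} (hx : x ∈ st'.dom) :
    x ∈ st.dom ∨ ∃ c, T.cov.Reach (q₀, ∅) c ∧ c ∉ D0 T st x₀ q₀ ∧ x = ι c := by
  by_cases h : x ∈ st.dom
  · exact Or.inl h
  · rcases (hG.dom_iff x).1 hx with h' | ⟨c, hc, rfl⟩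
    · exact absurd h' h
    · exact Or.inr ⟨c, hc, fun h' => h ((hG.old_iff c hc).2 h'), rfl⟩

theorem st_card_nil (hst : Good T a 6 st) (hG : Glue T st st' x₀ q₀ ι j)
    {x : Vt Q} (hx : x ∈ st.dom) {q : Q} (hq : ¬ st'.Ch T x q) {w : List S}
    (h : st.Common T x q w x) : w = [] := by
  have hq' : ¬ st.Ch T x q := fun h' => hq (Charted.mono hG.ext (fun h => hst.edge_dom h) hx h')
  have := (hst.inv x hx q hq' w x h).2
  rw [symmDiff_self, Finset.bot_eq_empty, Finset.card_empty] at this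
  exact List.eq_nil_of_length_eq_zero this.symm

/-- Two short paths leaving the overlap through different or equal points use different edges,
unless they start in the same way. -/
theorem leaves_disjoint (hst : Good T a 6 st) (hG : Glue T st st' x₀ q₀ ι j)
    {c d c' d' : Q × Finset (Sym2 Q)} {u v : List S} (hc : c ∈ D0 T st x₀ q₀)
    (hd : d ∈ D0 T st x₀ q₀) (hu : T.cov.Path c u c') (hv : T.cov.Path d v d')
    (hru : Red u) (hrv : Red v) (hlu : 100 * u.length ≤ T.g q₀) (hlv : 100 * v.length ≤ T.g q₀)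
    (hLu : Leaves T st x₀ q₀ c u) (hLv : Leaves T st x₀ q₀ d v) (e : Sym2 Q)
    (he : e ∈ c.2 ∆ c'.2) (he' : e ∈ d.2 ∆ d'.2) :
    c = d ∧ ∃ s u' v', u = s :: u' ∧ v = s :: v' := by
  obtain ⟨u₁, t, u₂, p, r, hueq, hu₁, ht, hu₂, rfl⟩ := edge_mem_of_path hu e he
  obtain ⟨v₁, t', v₂, p', r', hveq, hv₁, ht', hv₂, he2⟩ := edge_mem_of_path hv _ he'
  subst hueq
  subst hveq
  -- lift the initial parts
  obtain ⟨c1, hc1, hc2⟩ := path_append.1 hu
  obtain ⟨c2, hc3, hc4⟩ := hc2
  obtain ⟨d1, hd1, hd2⟩ := path_append.1 hv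
  obtain ⟨d2, hd3, hd4⟩ := hd2
  have hp1 : c1.1 = p := hc1.proj.func hu₁
  have hr1 : c2.1 = r := by
    have := hc3.1; rw [hp1] at this; exact T.func this ht
  have hp1' : d1.1 = p' := hd1.proj.func hv₁
  have hr1' : d2.1 = r' := by
    have := hd3.1; rw [hp1'] at this; exact T.func this ht'
  have hredu : Red (u₁ ++ [t]) := by
    have : Red ((u₁ ++ [t]) ++ u₂) := by simpa using hru
    exact this.left
  have hredv : Red (v₁ ++ [t']) := by
    have : Red ((v₁ ++ [t']) ++ v₂) := by simpa using hrv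
    exact this.left
  have hlu' : 100 * (u₁ ++ [t]).length ≤ T.g q₀ := by
    simp only [List.length_append, List.length_cons, List.length_nil] at hlu ⊢; omega
  have hlv' : 100 * (v₁ ++ [t']).length ≤ T.g q₀ := by
    simp only [List.length_append, List.length_cons, List.length_nil] at hlv ⊢; omega
  have hLu' : Leaves T st x₀ q₀ c (u₁ ++ [t]) := by
    intro w₁ w₂ c₁ hw hw0 hcp
    exact hLu w₁ (w₂ ++ u₂) c₁ (by rw [← List.append_assoc, ← hw]; simp) hw0 hcp
  have hLv' : Leaves T st x₀ q₀ d (v₁ ++ [t']) := by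
    intro w₁ w₂ c₁ hw hw0 hcp
    exact hLv w₁ (w₂ ++ v₂) c₁ (by rw [← List.append_assoc, ← hw]; simp) hw0 hcp
  have hcu : T.cov.Path c (u₁ ++ [t]) c2 := hc1.append (path_singleton.2 hc3)
  have hdv : T.cov.Path d (v₁ ++ [t']) d2 := hd1.append (path_singleton.2 hd3)
  rcases Sym2.eq_iff.1 he2 with ⟨h6, h7⟩ | ⟨h6, h7⟩
  · -- same direction
    have := leaves_unique hst hG hc hd hcu hdv (by rw [hr1, hr1', h7]) hredu hredv hlu' hlv'
      hLu' hLv'
    refine ⟨this.1, ?_⟩
    have h8 := this.2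
    rcases u₁ with _ | ⟨s, u₁⟩
    · rcases v₁ with _ | ⟨s', v₁⟩
      · simp at h8; subst h8; exact ⟨t, u₂, v₂, rfl, rfl⟩
      · simp at h8
    · rcases v₁ with _ | ⟨s', v₁⟩
      · simp at h8
      · simp at h8; obtain ⟨rfl, -⟩ := h8; exact ⟨s, _, _, rfl, rfl⟩
  · -- opposite direction : p = r', r = p'
    have hLv'' : Leaves T st x₀ q₀ d v₁ := by
      intro w₁ w₂ c₁ hw hw0 hcp
      exact hLv w₁ (w₂ ++ t' :: v₂) c₁ (by rw [hw]; simp) hw0 hcp
    have := leaves_unique hst hG hc hd hcu hd1 (by rw [hr1, hp1', h7]) hredu hredv.left hlu'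
      (by simp only [List.length_append] at hlv'; omega) hLu' hLv''
    refine ⟨this.1, ?_⟩
    have h8 := this.2
    rcases v₁ with _ | ⟨s', v₁⟩
    · simp at h8
    · rcases u₁ with _ | ⟨s, u₁⟩
      · simp at h8; obtain ⟨rfl, -⟩ := h8; exact ⟨t, _, _, rfl, rfl⟩
      · simp at h8; obtain ⟨rfl, -⟩ := h8; exact ⟨s, _, _, rfl, rfl⟩

theorem inv_of_glue (hst : Good T a 6 st) (hG : Glue T st st' x₀ q₀ ι j) : Inv T 8 st' := by
  intro x hx q hq w y h
  rcases mem_dom_cases hG hx with hx | ⟨c₀, hr, hD, rfl⟩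
  · have := inv_out hst hG hx hq h
    exact ⟨by omega, this.2⟩
  · have hg := reach_g hr
    have hg0 := T.hundred_le q₀
    rcases inn_aux hst hG hr hD hq h with ⟨c', hc', hcy, hl1, hl2⟩ |
      ⟨w₁, w₂, c, q', rfl, hw1, hc, hcp, hl1, hl2, hqp, hcom, hch, hL⟩
    · refine ⟨by omega, ?_⟩
      rw [← hcy, beta_new hG hr (hr.path hc'.path), Finset.card_image_of_injective _ hG.j_inj,
        cov_card h.1 hc'.path (by rw [hg]; omega)]
    · have hcdom := D0.mem hG hc
      have h2 := inv_out hst hG hcdom hch hcom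
      have hgq : T.g q' = T.g q := g_path hqp
      have hred : Red w₁ := h.1.left
      have hcard1 : (c₀.2 ∆ c.2).card = w₁.length := cov_card hred hcp (by rw [hg]; omega)
      refine ⟨by rw [List.length_append]; omega, ?_⟩
      have h3 : st'.β (ι c₀) ∆ st'.β y = ((c₀.2 ∆ c.2).image j) ∆ (st'.β (ι c) ∆ st'.β y) := by
        rw [← beta_new hG hr (D0.reach hc), symmDiff_assoc, symmDiff_symmDiff_cancel_left]
      have hed1 : ∀ e ∈ c₀.2 ∆ c.2, e ∉ edgesOf T (D0 T st x₀ q₀) := by
        have := leaves_edges hst hG hc hcp.rev hred.rev (by simpa using hl1) hL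
        intro e he
        rw [symmDiff_comm] at he
        exact this e he
      have hdisj : Disjoint ((c₀.2 ∆ c.2).image j) (st'.β (ι c) ∆ st'.β y) := by
        obtain ⟨v₁, v₂, z, rfl, h4, h5⟩ := out_aux hst hG hcdom hch hcom
        have hz : z ∈ st.dom := path_dom hst hcdom h4.2.1
        rcases h5 with ⟨rfl, rfl⟩ | ⟨hv2, hy, c₂, c₂', hc₂, hcz, hp₂, hc₂', hm1, hm2, hcD₂, hL₂⟩
        · exact (old_new_disjoint hst hG hcdom hz hed1).symm
        · have h6 : st'.β (ι c) ∆ st'.β y =
              (st'.β (ι c) ∆ st'.β z) ∆ ((c₂.2 ∆ c₂'.2).image j) := by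
            rw [← beta_new hG (D0.reach hc₂) ((D0.reach hc₂).path hp₂), hcz, hc₂',
              symmDiff_assoc, symmDiff_symmDiff_cancel_left]
          rw [h6, Finset.disjoint_left]
          intro k hk hk'
          rcases Finset.mem_symmDiff.1 hk' with ⟨h7, -⟩ | ⟨h7, -⟩
          · exact Finset.disjoint_left.1 (old_new_disjoint hst hG hcdom hz hed1) h7 hk
          · obtain ⟨e, he, rfl⟩ := Finset.mem_image.1 hk
            obtain ⟨e', he', hee⟩ := Finset.mem_image.1 h7
            have hee' := hG.j_inj hee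
            subst hee'
            have hredv : Red v₂ := hcom.1.right
            obtain ⟨hcc, s, u', v', hu', hv'⟩ := leaves_disjoint hst hG hc hc₂ hcp.rev hp₂
              hred.rev hredv (by simpa using hl1) hm1 hL hL₂ e' (by rwa [symmDiff_comm]) he'
            subst hcc
            subst hcz
            have hv1 : v₁ = [] := st_card_nil hst hG hcdom hch h4
            subst hv1
            have hw1' : w₁ = u'.reverse ++ [s] := by
              have := congrArg List.reverse hu'
              simpa using this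
            have : Red ((u'.reverse ++ [s]) ++ (s :: v')) := by
              have := h.1
              rw [hw1', hv'] at this
              simpa using this
            have h9 : Red (u'.reverse ++ ([s, s] ++ v')) := by simpa using this
            have h10 : Red [s, s] := h9.right.left
            simp [Red] at h10
      rw [h3, card_symmDiff_disjoint hdisj, Finset.card_image_of_injective _ hG.j_inj, hcard1,
        h2.2, List.length_append]

theorem Common.rev {st : St S Q H} {x y : Vt Q} {q q' : Q} {w : List S}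
    (h : st.Common T x q w y) (hq : T.Path q w q') : st.Common T y q' w.reverse x :=
  ⟨h.1.rev, h.2.1.rev, q, hq.rev⟩

/-- No bigons, starting in the old part. -/
theorem bg_out (hst : Good T a 6 st) (hG : Glue T st st' x₀ q₀ ι j)
    {x : Vt Q} (hx : x ∈ st.dom) {q q' : Q} (hq : ¬ st'.Ch T x q) (hq' : ¬ st'.Ch T x q')
    {w w' : List S} {y : Vt Q} (h : st'.Common T x q w y) (h' : st'.Common T x q' w' y) :
    w = w' := by
  have hs : ¬ st.Ch T x q := fun h' => hq (Charted.mono hG.ext (fun h => hst.edge_dom h) hx h')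
  have hs' : ¬ st.Ch T x q' := fun h' => hq' (Charted.mono hG.ext (fun h => hst.edge_dom h) hx h')
  obtain ⟨w₁, w₂, z, rfl, h1, h2⟩ := out_aux hst hG hx hq h
  obtain ⟨v₁, v₂, z', rfl, h1', h2'⟩ := out_aux hst hG hx hq' h'
  rcases h2 with ⟨rfl, rfl⟩ | ⟨hw2, hy, c, c', hc, hcz, hp, hc', hl1, hl2, hcD, hL⟩ <;>
  rcases h2' with ⟨rfl, rfl⟩ | ⟨hv2, hy', d, d', hd, hdz, hp', hd', hm1, hm2, hdD, hM⟩
  · rw [List.append_nil, List.append_nil]
    exact hst.bg x hx q q' hs hs' _ _ _ h1 h1'
  · exact absurd (path_dom hst hx h1.2.1) hy'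
  · exact absurd (path_dom hst hx h1'.2.1) hy
  · have hcd : c' = d' := hG.inj _ _ ((D0.reach hc).path hp) ((D0.reach hd).path hp')
      (hc'.trans hd'.symm)
    obtain ⟨rfl, rfl⟩ := leaves_unique hst hG hc hd hp hp' (by rw [hcd]) h.1.right h'.1.right
      hl1 hm1 hL hM
    rw [← hcz] at h1
    rw [← hdz] at h1'
    rw [hst.bg x hx q q' hs hs' _ _ _ h1 h1']

theorem bg_of_glue (hst : Good T a 6 st) (hb : Basic T a st') (hG : Glue T st st' x₀ q₀ ι j) :
    Bg T st' := by
  intro x hx q q' hq hq' w w' y h h'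
  rcases mem_dom_cases hG hx with hx1 | ⟨c₀, hr, hD, rfl⟩
  · exact bg_out hst hG hx1 hq hq' h h'
  · have hy : y ∈ st'.dom := by
      rcases List.eq_nil_or_concat w with rfl | ⟨w', t, rfl⟩
      · have := h.2.1; rw [path_nil] at this; subst this; exact hx
      · have := h.2.1
        rw [List.concat_eq_append] at this
        obtain ⟨u, -, hu⟩ := path_snoc.1 this
        exact hb.edge_dom (st'.X.symm hu)
    rcases mem_dom_cases hG hy with hy1 | ⟨d, hdr, hdD, rfl⟩
    · obtain ⟨r, hr1⟩ := h.2.2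
      obtain ⟨r', hr1'⟩ := h'.2.2
      have h3 : ¬ st'.Ch T y r := fun hc => hq (Charted.path' hc hr1.rev h.2.1.rev)
      have h3' : ¬ st'.Ch T y r' := fun hc => hq' (Charted.path' hc hr1'.rev h'.2.1.rev)
      have := bg_out hst hG hy1 h3 h3' (Common.rev h hr1) (Common.rev h' hr1')
      exact List.reverse_injective this
    · have hg := reach_g hr
      have hg0 := T.hundred_le q₀
      -- the mixed case
      have mixed : ∀ {q q' : Q} {w w' : List S}, ¬ st'.Ch T (ι c₀) q' →
          Red w → (∃ c', T.cov.PathIn (D0 T st x₀ q₀)ᶜ c₀ w c' ∧ ι c' = ι d ∧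
          100 * w.length ≤ T.g q₀) → st'.Common T (ι c₀) q' w' (ι d) →
          (∃ w₁ w₂ c q'', w' = w₁ ++ w₂ ∧ w₁ ≠ [] ∧ c ∈ D0 T st x₀ q₀ ∧ T.cov.Path c₀ w₁ c ∧
          100 * w₁.length ≤ T.g q₀ ∧ 100 * w₁.length ≤ T.g q' ∧
          T.Path q' w₁ q'' ∧ st'.Common T (ι c) q'' w₂ (ι d) ∧ ¬ st'.Ch T (ι c) q'' ∧
          Leaves T st x₀ q₀ c w₁.reverse) → False := by
        rintro q q' w w' - hrw ⟨c', hc', hcy, hl⟩ hcom
          ⟨w₁, w₂, c, q'', rfl, hw1, hc, hcp, hl1, hl2, hqp, hcom2, hch, hL⟩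
        have hcd : c' = d := hG.inj _ _ (hr.path hc'.path) hdr hcy
        subst hcd
        have hcdom := D0.mem hG hc
        obtain ⟨v₁, v₂, z, rfl, h4, h5⟩ := out_aux hst hG hcdom hch hcom2
        rcases h5 with ⟨rfl, rfl⟩ | ⟨hv2, hy2, c₂, c₂', hc₂, hcz, hp₂, hc₂', hm1, hm2, hcD₂, hL₂⟩
        · exact hdD ((hG.old_iff _ hdr).1 (path_dom hst hcdom h4.2.1))
        · have hcd2 : c₂' = c' := hG.inj _ _ ((D0.reach hc₂).path hp₂) hdr hc₂'
          subst hcd2
          obtain ⟨u, hu, hup, hul⟩ := D0.word hst hG hc hc₂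
          -- the word w₁ ++ u ++ v₂
          obtain ⟨m, hm, hml, -, hmp⟩ := exists_red (w₁ ++ (u ++ v₂))
          have hcov : T.cov.Path c₀ (w₁ ++ (u ++ v₂)) c₂' := hcp.append (hup.append hp₂)
          have hmw : m = w := T.girth hm hrw (hmp _ _ _ hcov).proj hc'.path.proj (by
            rw [hg]; simp only [List.length_append] at hml; omega)
          -- this word is reduced
          have hredw : Red (w₁ ++ (u ++ v₂)) := by
            rcases List.eq_nil_or_concat u with rfl | ⟨u', t, rfl⟩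
            · rw [path_nil] at hup
              subst hup
              subst hcz
              have hv1 : v₁ = [] := st_card_nil hst hG hcdom hch h4
              subst hv1
              simpa using hcom.1
            · rw [List.concat_eq_append] at *
              -- w₁ ++ u reduced and u ++ v₂ reduced
              have key : ∀ {e f : Q × Finset (Sym2 Q)} {p v : List S} {f' : Q × Finset (Sym2 Q)},
                  e ∈ D0 T st x₀ q₀ → f ∈ D0 T st x₀ q₀ → st.Common T (ι e) e.1 p (ι f) →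
                  T.cov.Path e p f → T.cov.Path f v f' → Red v → Leaves T st x₀ q₀ f v →
                  Red (p ++ v) := by
                intro e f p v f' he hf hcm hpf hvf hrv hLv
                rw [Red, List.isChain_append]
                refine ⟨hcm.1, hrv, ?_⟩
                intro s hs s' hs' hss
                subst hss
                obtain ⟨z', rfl⟩ : ∃ z', p = z' ++ [s] := by
                  rcases List.eq_nil_or_concat p with rfl | ⟨z', t, rfl⟩
                  · simp at hs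
                  · simp at hs; subst hs; exact ⟨z', by simp⟩
                obtain ⟨v', rfl⟩ : ∃ v', v = s :: v' := by
                  rcases v with _ | ⟨t, v'⟩
                  · simp at hs'
                  · simp at hs'; subst hs'; exact ⟨v', rfl⟩
                obtain ⟨e1, he1, he2⟩ := path_snoc.1 hpf
                obtain ⟨f1, hf1, hf2⟩ := hvf
                have := T.cov.func (T.cov.symm he2) hf1
                subst this
                obtain ⟨y, hy, -⟩ := path_snoc.1 hcm.2.1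
                exact hLv [s] v' e1 rfl (by simp) (path_singleton.2 hf1)
                  (D0.of_path hG he he1 hy).1
              have k1 : Red ((u' ++ [t]) ++ v₂) := key hc hc₂ hu hup hp₂ hcom2.1.right hL₂
              have k2 : Red ((u' ++ [t]).reverse ++ w₁.reverse) := by
                obtain ⟨r, hr2⟩ := hu.2.2
                refine key hc₂ hc ?_ hup.rev hcp.rev hcom.1.left.rev hL
                have := Common.rev hu hup.proj
                exact this
              have k3 : Red (w₁ ++ (u' ++ [t])) := by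
                have := k2.rev
                simpa using this
              rw [Red, List.isChain_append] at k1 k3 ⊢
              refine ⟨k3.1, ?_, ?_⟩
              · rw [List.isChain_append]; exact k1
              · intro s hs s' hs'
                refine k3.2.2 s hs s' ?_
                have hne : u' ++ [t] ≠ [] := by simp
                rwa [List.head?_append_of_ne_nil _ hne] at hs'
          have hmm : m = w₁ ++ (u ++ v₂) := by
            refine T.girth hm hredw (hmp _ _ _ hcov).proj hcov.proj ?_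
            rw [hg]; simp only [List.length_append] at hml ⊢; omega
          rw [← hmw, hmm] at hc'
          obtain ⟨x1, hx1, -⟩ := pathIn_append.1 hc'
          have : x1 = c := hx1.path.func hcp
          subst this
          exact hx1.mem_right hc
      have A := inn_aux hst hG hr hD hq h
      have A' := inn_aux hst hG hr hD hq' h'
      rcases A with ⟨c', hc', hcy, hl1, hl2⟩ | A
      · rcases A' with ⟨c'', hc'', hcy', hl1', hl2'⟩ | A'
        · have hcc : c' = c'' := hG.inj _ _ (hr.path hc'.path) (hr.path hc''.path)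
            (hcy.trans hcy'.symm)
          subst hcc
          exact T.girth h.1 h'.1 hc'.path.proj hc''.path.proj (by rw [hg]; omega)
        · exact (mixed (q := q) hq' h.1 ⟨c', hc', hcy, hl1⟩ h' A').elim
      · rcases A' with ⟨c'', hc'', hcy', hl1', hl2'⟩ | A'
        · exact (mixed (q := q) hq h'.1 ⟨c'', hc'', hcy', hl1'⟩ h A).elim
        · obtain ⟨w₁, w₂, c, r, rfl, hw1, hc, hcp, hl1, hl2, hqp, hcom, hch, hL⟩ := A
          obtain ⟨v₁, v₂, d', r', rfl, hv1, hd, hdp, hm1, hm2, hqp', hcom', hch', hM⟩ := A'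
          obtain ⟨rfl, huv⟩ := leaves_unique hst hG hc hd hcp.rev hdp.rev rfl h.1.left.rev
            h'.1.left.rev (by simpa using hl1) (by simpa using hm1) hL hM
          have huv' : w₁ = v₁ := List.reverse_injective huv
          subst huv'
          rw [bg_out hst hG (D0.mem hG hc) hch hch' hcom hcom']

end glue

end Pool.Agent.TH950.FC
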